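import Mathlib

set_option autoImplicit false

namespace Pool.Agent.L5helper2.GR

open Finset

open Classical in
/-- the primes `l` of `DD` dividing `x` with `n mod l ∈ R l` -/
noncomputable def hits (DD : Set ℕ) (R : ℕ → Finset ℕ) (x n : ℕ) : Finset ℕ :=
  x.primeFactors.filter (fun l => l ∈ DD ∧ n % l ∈ R l)

/-- one step of the recursion -/
noncomputable def st (p : ℕ) (D : ℕ → ℕ → Finset ℕ → ℕ) (H : Finset ℕ) (x n : ℕ) : ℕ :=
  if x = 0 then n ^ p - 1 else x - Nat.gcd x (D n x H)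

/-- the recursion -/
noncomputable def A (p : ℕ) (D : ℕ → ℕ → Finset ℕ → ℕ) (DD : Set ℕ) (R : ℕ → Finset ℕ) : ℕ → ℕ
  | 0 => 1
  | 1 => 1
  | (n + 2) => st p D (hits DD R (A p D DD R (n + 1)) (n + 2)) (A p D DD R (n + 1)) (n + 2)

/-- the recursion read off from a transcript -/
noncomputable def B (p : ℕ) (D : ℕ → ℕ → Finset ℕ → ℕ) (T : Finset (ℕ × ℕ)) : ℕ → ℕ
  | 0 => 1
  | 1 => 1
  | (n + 2) => st p D ((T.filter (fun t => t.1 = n + 2)).image Prod.snd) (B p D T (n + 1)) (n + 2)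

/-- the transcript up to the time `z` -/
noncomputable def tr (p : ℕ) (D : ℕ → ℕ → Finset ℕ → ℕ) (DD : Set ℕ) (R : ℕ → Finset ℕ) (z : ℕ) :
    Finset (ℕ × ℕ) :=
  (Finset.Icc 2 z).biUnion (fun n => (hits DD R (A p D DD R (n - 1)) n).image (fun l => (n, l)))

variable {p : ℕ} {D : ℕ → ℕ → Finset ℕ → ℕ} {DD : Set ℕ}

lemma mem_hits {R : ℕ → Finset ℕ} {x n l : ℕ} :
    l ∈ hits DD R x n ↔ l ∈ x.primeFactors ∧ l ∈ DD ∧ n % l ∈ R l := by
  classical
  unfold hits
  rw [Finset.mem_filter]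

lemma mem_tr {R : ℕ → Finset ℕ} {z n l : ℕ} :
    (n, l) ∈ tr p D DD R z ↔ 2 ≤ n ∧ n ≤ z ∧ l ∈ hits DD R (A p D DD R (n - 1)) n := by
  unfold tr
  rw [Finset.mem_biUnion]
  constructor
  · rintro ⟨m, hm, h⟩
    rw [Finset.mem_image] at h
    obtain ⟨l', hl', h⟩ := h
    rw [Prod.mk.injEq] at h
    obtain ⟨rfl, rfl⟩ := h
    rw [Finset.mem_Icc] at hm
    exact ⟨hm.1, hm.2, hl'⟩
  · rintro ⟨h1, h2, h3⟩
    exact ⟨n, Finset.mem_Icc.2 ⟨h1, h2⟩, Finset.mem_image.2 ⟨l, h3, rfl⟩⟩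

lemma mem_snd {T : Finset (ℕ × ℕ)} {n l : ℕ} :
    l ∈ (T.filter (fun t => t.1 = n)).image Prod.snd ↔ (n, l) ∈ T := by
  rw [Finset.mem_image]
  constructor
  · rintro ⟨⟨m, l'⟩, h, rfl⟩
    rw [Finset.mem_filter] at h
    obtain ⟨h1, h2⟩ := h
    simp only at h2
    subst h2
    exact h1
  · intro h
    exact ⟨(n, l), Finset.mem_filter.2 ⟨h, rfl⟩, rfl⟩

lemma A_one (R : ℕ → Finset ℕ) : A p D DD R 1 = 1 := by rw [A]

lemma A_succ (R : ℕ → Finset ℕ) (n : ℕ) : A p D DD R (n + 2) =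
    st p D (hits DD R (A p D DD R (n + 1)) (n + 2)) (A p D DD R (n + 1)) (n + 2) := by rw [A]

lemma B_succ (T : Finset (ℕ × ℕ)) (n : ℕ) : B p D T (n + 2) =
    st p D ((T.filter (fun t => t.1 = n + 2)).image Prod.snd) (B p D T (n + 1)) (n + 2) := by rw [B]

/-- the path is determined by the transcript -/
lemma A_eq_B (R : ℕ → Finset ℕ) (z : ℕ) : ∀ n : ℕ, n ≤ z →
    A p D DD R n = B p D (tr p D DD R z) n := by
  intro n
  induction n using Nat.strong_induction_on with
  | _ n ih =>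
    intro hn
    match n, ih, hn with
    | 0, _, _ => rw [A, B]
    | 1, _, _ => rw [A, B]
    | (k + 2), ih, hn =>
      rw [A_succ, B_succ, ← ih (k + 1) (by omega) (by omega)]
      congr 1
      ext l
      rw [mem_snd, mem_tr, show k + 2 - 1 = k + 1 by omega]
      constructor
      · intro h
        exact ⟨by omega, hn, h⟩
      · exact fun h => h.2.2

/-- consistency of a transcript -/
def Cons (p : ℕ) (D : ℕ → ℕ → Finset ℕ → ℕ) (DD : Set ℕ) (z : ℕ) (T : Finset (ℕ × ℕ)) : Prop :=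
  ∀ t ∈ T, 2 ≤ t.1 ∧ t.1 ≤ z ∧ t.2 ∈ (B p D T (t.1 - 1)).primeFactors ∧ t.2 ∈ DD

/-- the condition on the set at the prime `l` -/
def Cnd (p : ℕ) (D : ℕ → ℕ → Finset ℕ → ℕ) (z : ℕ) (T : Finset (ℕ × ℕ)) (l : ℕ) (S : Finset ℕ) : Prop :=
  ∀ n : ℕ, 2 ≤ n → n ≤ z → l ∈ (B p D T (n - 1)).primeFactors → (n % l ∈ S ↔ (n, l) ∈ T)

lemma tr_eq_iff (R : ℕ → Finset ℕ) (z : ℕ) (T : Finset (ℕ × ℕ)) :
    tr p D DD R z = T ↔ Cons p D DD z T ∧ ∀ l ∈ DD, Cnd p D z T l (R l) := by
  constructor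
  · intro h
    have hAB : ∀ n : ℕ, n ≤ z → A p D DD R n = B p D T n := by
      rw [← h]
      exact A_eq_B R z
    constructor
    · rintro ⟨n, l⟩ ht
      rw [← h, mem_tr, mem_hits] at ht
      obtain ⟨h1, h2, h3, h4, h5⟩ := ht
      refine ⟨h1, h2, ?_, h4⟩
      rw [← hAB (n - 1) (by omega)]
      exact h3
    · intro l hl n h1 h2 h3
      rw [← hAB (n - 1) (by omega)] at h3
      rw [← h, mem_tr, mem_hits]
      constructor
      · intro h4
        exact ⟨h1, h2, h3, hl, h4⟩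
      · exact fun h4 => h4.2.2.2.2
  · rintro ⟨hc, hR⟩
    have hAB : ∀ n : ℕ, n ≤ z → A p D DD R n = B p D T n := by
      intro n
      induction n using Nat.strong_induction_on with
      | _ n ih =>
        intro hn
        match n, ih, hn with
        | 0, _, _ => rw [A, B]
        | 1, _, _ => rw [A, B]
        | (k + 2), ih, hn =>
          rw [A_succ, B_succ, ← ih (k + 1) (by omega) (by omega)]
          congr 1
          ext l
          rw [mem_snd, mem_hits]
          constructor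
          · rintro ⟨h3, h4, h5⟩
            rw [ih (k + 1) (by omega) (by omega)] at h3
            exact (hR l h4 (k + 2) (by omega) hn (by simpa using h3)).1 h5
          · intro h
            obtain ⟨h1, h2, h3, h4⟩ := hc _ h
            simp only at h1 h2 h3 h4
            refine ⟨?_, h4, ?_⟩
            · rw [ih (k + 1) (by omega) (by omega)]
              simpa using h3
            · exact (hR l h4 (k + 2) (by omega) hn h3).2 h
    ext ⟨n, l⟩
    rw [mem_tr, mem_hits]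
    constructor
    · rintro ⟨h1, h2, h3, h4, h5⟩
      rw [hAB (n - 1) (by omega)] at h3
      exact (hR l h4 n h1 h2 h3).1 h5
    · intro h
      obtain ⟨h1, h2, h3, h4⟩ := hc _ h
      simp only at h1 h2 h3 h4
      refine ⟨h1, h2, ?_, h4, (hR l h4 n h1 h2 h3).2 h⟩
      rw [hAB (n - 1) (by omega)]
      exact h3

lemma st_le (H : Finset ℕ) (x n : ℕ) (hx : x ≠ 0) : st p D H x n ≤ x := by
  unfold st
  rw [if_neg hx]
  exact Nat.sub_le _ _

lemma B_le (hp : 1 ≤ p) (T : Finset (ℕ × ℕ)) : ∀ n : ℕ, 1 ≤ n → B p D T n ≤ n ^ p := by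
  intro n hn
  induction n, hn using Nat.le_induction with
  | base => rw [B]; simp
  | succ k hk ih =>
    obtain ⟨j, rfl⟩ : ∃ j, k = j + 1 := ⟨k - 1, by omega⟩
    rw [show j + 1 + 1 = j + 2 by ring, B_succ]
    by_cases h : B p D T (j + 1) = 0
    · unfold st
      rw [if_pos h]
      exact Nat.sub_le _ _
    · exact (st_le _ _ _ h).trans (ih.trans (Nat.pow_le_pow_left (by omega) p))

/-- the values decrease until the next zero -/
lemma zero_exists (R : ℕ → Finset ℕ) (N : ℕ) : ∃ n : ℕ, N < n ∧ A p D DD R n = 0 := by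
  by_contra hcon
  push Not at hcon
  have h1 : ∀ k : ℕ, A p D DD R (N + 1 + k) + k ≤ A p D DD R (N + 1) := by
    intro k
    induction k with
    | zero => simp
    | succ k ih =>
      have h0 : A p D DD R (N + 1 + k) ≠ 0 := hcon _ (by omega)
      have e1 : N + 1 + (k + 1) = (N + k) + 2 := by ring
      have e2 : N + 1 + k = (N + k) + 1 := by ring
      rw [e1, A_succ]
      rw [e2] at ih h0
      have h2 : st p D (hits DD R (A p D DD R (N + k + 1)) (N + k + 2)) (A p D DD R (N + k + 1)) (N + k + 2) + 1 ≤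
          A p D DD R (N + k + 1) := by
        unfold st
        rw [if_neg h0]
        have h3 : 0 < Nat.gcd (A p D DD R (N + k + 1)) (D (N + k + 2) (A p D DD R (N + k + 1))
            (hits DD R (A p D DD R (N + k + 1)) (N + k + 2))) :=
          Nat.gcd_pos_of_pos_left _ (Nat.pos_of_ne_zero h0)
        have h4 := Nat.gcd_le_left (D (N + k + 2) (A p D DD R (N + k + 1))
            (hits DD R (A p D DD R (N + k + 1)) (N + k + 2))) (Nat.pos_of_ne_zero h0)
        omega
      omega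
  have h2 := h1 (A p D DD R (N + 1))
  have h3 : A p D DD R (N + 1 + A p D DD R (N + 1)) = 0 := by omega
  exact hcon _ (by omega) h3

end Pool.Agent.L5helper2.GR
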