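import Mathlib

set_option autoImplicit false

namespace Pool.Agent.L5helper2.GR

open Finset MeasureTheory
open scoped ENNReal

instance instFs : MeasurableSpace (Finset ℕ) := ⊤

lemma choose_step (l m k : ℕ) (hm : 1 ≤ m) (hml : m ≤ l) (hk : k ≤ l) :
    ((Nat.choose (m - 1) k : ℕ) : ℝ) ≤ (1 - (k : ℝ) / l) * (Nat.choose m k : ℕ) := by
  have hl : (0 : ℝ) < l := by exact_mod_cast (by omega : 0 < l)
  have hm0 : (0 : ℝ) < m := by exact_mod_cast (by omega : 0 < m)
  have hfac : (0 : ℝ) ≤ 1 - (k : ℝ) / l := by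
    rw [sub_nonneg, div_le_one hl]
    exact_mod_cast hk
  rcases Nat.lt_or_ge m k with h | h
  · rw [Nat.choose_eq_zero_of_lt (by omega : m - 1 < k)]
    push_cast
    positivity
  · have h1 := Nat.choose_mul_succ_eq (m - 1) k
    rw [show m - 1 + 1 = m by omega] at h1
    have h2 : ((Nat.choose (m - 1) k : ℕ) : ℝ) * m = (Nat.choose m k : ℕ) * ((m : ℝ) - k) := by
      have := congrArg (fun x : ℕ => (x : ℝ)) h1
      push_cast at this
      rw [Nat.cast_sub h] at this
      exact this
    have h3 : ((Nat.choose (m - 1) k : ℕ) : ℝ) = (1 - (k : ℝ) / m) * (Nat.choose m k : ℕ) := by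
      field_simp
      linarith
    rw [h3]
    apply mul_le_mul_of_nonneg_right _ (Nat.cast_nonneg _)
    have : (k : ℝ) / l ≤ (k : ℝ) / m := by
      apply div_le_div_of_nonneg_left (Nat.cast_nonneg _) hm0
      exact_mod_cast hml
    linarith

variable {Ω : Type*} [MeasurableSpace Ω]

/-- the probability of a family of sets for a uniform random `k`-subset of `range l` -/
lemma unif_family (μ : Measure Ω) [IsProbabilityMeasure μ] (X : Ω → Finset ℕ) (hX : Measurable X)
    (l k : ℕ) (hk : k ≤ l)
    (hU : ∀ S : Finset ℕ, S ⊆ range l → S.card = k → μ {ω | X ω = S} = ((l.choose k : ℕ) : ℝ≥0∞)⁻¹)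
    (Q : Finset ℕ → Prop) [DecidablePred Q] :
    μ {ω | Q (X ω)} = (((powersetCard k (range l)).filter Q).card : ℝ≥0∞) * ((l.choose k : ℕ) : ℝ≥0∞)⁻¹ := by
  have hc0 : ((l.choose k : ℕ) : ℝ≥0∞) ≠ 0 := by
    have := Nat.choose_pos hk
    exact_mod_cast this.ne'
  have hct : ((l.choose k : ℕ) : ℝ≥0∞) ≠ ∞ := ENNReal.natCast_ne_top _
  have key : ∀ F : Finset (Finset ℕ), F ⊆ powersetCard k (range l) →
      μ {ω | X ω ∈ F} = (F.card : ℝ≥0∞) * ((l.choose k : ℕ) : ℝ≥0∞)⁻¹ := by
    intro F hF
    have h1 : {ω | X ω ∈ F} = ⋃ S ∈ F, {ω | X ω = S} := by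
      ext ω
      simp
    rw [h1, measure_biUnion_finset]
    · rw [Finset.sum_congr rfl (fun S hS => hU S (mem_powersetCard.1 (hF hS)).1
        (mem_powersetCard.1 (hF hS)).2), Finset.sum_const, nsmul_eq_mul]
    · intro S _ S' _ hne
      rw [Function.onFun, Set.disjoint_left]
      intro ω h1 h2
      exact hne (h1.symm.trans h2)
    · intro S _
      exact hX (t := {S}) trivial
  have hfull : μ {ω | X ω ∈ powersetCard k (range l)} = 1 := by
    rw [key _ (Subset.refl _), card_powersetCard, card_range]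
    exact ENNReal.mul_inv_cancel hc0 hct
  have hcompl : μ {ω | X ω ∈ powersetCard k (range l)}ᶜ = 0 := by
    have hms : MeasurableSet {ω | X ω ∈ powersetCard k (range l)} :=
      hX (t := {S | S ∈ powersetCard k (range l)}) trivial
    rw [prob_compl_eq_zero_iff hms]
    exact hfull
  rw [← key _ (filter_subset _ _)]
  apply le_antisymm
  · calc μ {ω | Q (X ω)} ≤ μ ({ω | X ω ∈ (powersetCard k (range l)).filter Q} ∪
          {ω | X ω ∈ powersetCard k (range l)}ᶜ) := by
          apply measure_mono
          intro ω hω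
          by_cases h : X ω ∈ powersetCard k (range l)
          · left
            exact mem_filter.2 ⟨h, hω⟩
          · right
            exact h
      _ ≤ _ := measure_union_le _ _
      _ = μ {ω | X ω ∈ (powersetCard k (range l)).filter Q} := by rw [hcompl, add_zero]
  · apply measure_mono
    intro ω hω
    have h : X ω ∈ (powersetCard k (range l)).filter Q := hω
    exact (mem_filter.1 h).2

lemma card_disj (l k : ℕ) (N : Finset ℕ) (hN : N ⊆ range l) :
    ((powersetCard k (range l)).filter (fun S => Disjoint S N)).card = Nat.choose (l - N.card) k := by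
  have h1 : (powersetCard k (range l)).filter (fun S => Disjoint S N) =
      powersetCard k (range l \ N) := by
    ext S
    rw [mem_filter, mem_powersetCard, mem_powersetCard, subset_sdiff]
    tauto
  rw [h1, card_powersetCard, card_sdiff_of_subset hN, card_range]

/-- conditionally on avoiding `N`, the point `s` is avoided with probability at most `1 - k/l` -/
lemma unif_step (μ : Measure Ω) [IsProbabilityMeasure μ] (X : Ω → Finset ℕ) (hX : Measurable X)
    (l k : ℕ) (hk : k ≤ l)
    (hU : ∀ S : Finset ℕ, S ⊆ range l → S.card = k → μ {ω | X ω = S} = ((l.choose k : ℕ) : ℝ≥0∞)⁻¹)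
    (N : Finset ℕ) (hN : N ⊆ range l) (s : ℕ) (hs : s < l) (hsN : s ∉ N) :
    μ {ω | Disjoint (X ω) N ∧ s ∉ X ω} ≤
      ENNReal.ofReal (1 - (k : ℝ) / l) * μ {ω | Disjoint (X ω) N} := by
  classical
  have e1 : {ω | Disjoint (X ω) N ∧ s ∉ X ω} = {ω | Disjoint (X ω) (insert s N)} := by
    ext ω
    simp only [Set.mem_ofPred_eq, disjoint_insert_right]
    tauto
  have hins : insert s N ⊆ range l := by
    intro x hx
    rcases mem_insert.1 hx with rfl | hx
    · exact mem_range.2 hs
    · exact hN hx
  have hcard : N.card < l := by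
    have h1 := card_le_card hins
    rw [card_insert_of_notMem hsN, card_range] at h1
    omega
  rw [e1, unif_family μ X hX l k hk hU (fun S => Disjoint S (insert s N)),
    unif_family μ X hX l k hk hU (fun S => Disjoint S N), card_disj l k _ hins, card_disj l k N hN,
    card_insert_of_notMem hsN, ← mul_assoc]
  apply mul_le_mul_left
  have h2 := choose_step l (l - N.card) k (by omega) (Nat.sub_le _ _) hk
  have hl : (0 : ℝ) < l := by exact_mod_cast (by omega : 0 < l)
  have hfac : (0 : ℝ) ≤ 1 - (k : ℝ) / l := by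
    rw [sub_nonneg, div_le_one hl]
    exact_mod_cast hk
  have h3 := ENNReal.ofReal_le_ofReal h2
  rw [ENNReal.ofReal_mul hfac, ENNReal.ofReal_natCast, ENNReal.ofReal_natCast] at h3
  rw [show l - (N.card + 1) = l - N.card - 1 by omega]
  exact h3

end Pool.Agent.L5helper2.GR
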