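import Mathlib
import Pool.Agent.L5helper2.GR.Core
import Pool.Agent.L5helper2.GR.Unif

set_option autoImplicit false

namespace Pool.Agent.L5helper2.GR

open Finset MeasureTheory ProbabilityTheory
open scoped ENNReal

open Classical in
/-- the primes `l > n + 1` of `DD` whose square is at most `((n+1)^p - 1)/n` -/
noncomputable def L (p : ℕ) (DD : Set ℕ) (n : ℕ) : Finset ℕ :=
  (range ((n + 1) ^ p)).filter (fun l => l ∈ DD ∧ n + 1 < l ∧ l ^ 2 ≤ ((n + 1) ^ p - 1) / n)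

lemma mem_L {p : ℕ} {DD : Set ℕ} {n l : ℕ} :
    l ∈ L p DD n ↔ l ∈ DD ∧ n + 1 < l ∧ l ^ 2 ≤ ((n + 1) ^ p - 1) / n := by
  classical
  unfold L
  rw [mem_filter, mem_range]
  constructor
  · exact fun h => h.2
  · rintro ⟨h1, h2, h3⟩
    refine ⟨?_, h1, h2, h3⟩
    have h4 : l ≤ l ^ 2 := Nat.le_self_pow (by norm_num) l
    have h5 : ((n + 1) ^ p - 1) / n ≤ (n + 1) ^ p - 1 := Nat.div_le_self _ _
    have h6 : 0 < (n + 1) ^ p := by positivity
    omega

/-- `n + 1` is in none of the sets at the primes of `L n` -/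
def good (p : ℕ) (DD : Set ℕ) (R : ℕ → Finset ℕ) (n : ℕ) : Prop := ∀ l ∈ L p DD n, n + 1 ∉ R l

variable {p : ℕ} {D : ℕ → ℕ → Finset ℕ → ℕ} {DD : Set ℕ}

/-- the zeros of `f` in `(N, z)` -/
def cz (f : ℕ → ℕ) (N z : ℕ) : Finset ℕ := (Ioo N z).filter (fun n => f n = 0)

/-- the zeros of `f` in `(N, z)` whose rank is in `M` -/
def mz (f : ℕ → ℕ) (M : Finset ℕ) (N z : ℕ) : Finset ℕ :=
  (cz f N z).filter (fun n => (cz f N n).card ∈ M)

/-- the event that `z` is the zero of rank `m` after `N` and the zeros before it with rank in `M`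
are good -/
def U (p : ℕ) (D : ℕ → ℕ → Finset ℕ → ℕ) (DD : Set ℕ) (M : Finset ℕ) (N z m : ℕ) (R : ℕ → Finset ℕ) : Prop :=
  A p D DD R z = 0 ∧ N < z ∧ (cz (A p D DD R) N z).card = m ∧
    ∀ n ∈ mz (A p D DD R) M N z, good p DD R n

noncomputable def ZT (p : ℕ) (D : ℕ → ℕ → Finset ℕ → ℕ) (M : Finset ℕ) (N z : ℕ) (T : Finset (ℕ × ℕ)) : Finset ℕ :=
  mz (B p D T) M N z

def UT (p : ℕ) (D : ℕ → ℕ → Finset ℕ → ℕ) (DD : Set ℕ) (N z m : ℕ) (T : Finset (ℕ × ℕ)) : Prop :=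
  Cons p D DD z T ∧ B p D T z = 0 ∧ N < z ∧ (cz (B p D T) N z).card = m

lemma cz_congr {f g : ℕ → ℕ} {N z : ℕ} (h : ∀ n, n < z → f n = g n) : cz f N z = cz g N z := by
  unfold cz
  apply filter_congr
  intro n hn
  rw [h n (mem_Ioo.1 hn).2]

lemma mz_congr {f g : ℕ → ℕ} {M : Finset ℕ} {N z : ℕ} (h : ∀ n, n < z → f n = g n) :
    mz f M N z = mz g M N z := by
  unfold mz
  rw [cz_congr h]
  apply filter_congr
  intro n hn
  have h1 : n < z := (mem_Ioo.1 (mem_filter.1 hn).1).2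
  rw [cz_congr (fun k hk => h k (hk.trans h1))]

lemma mz_lt {f : ℕ → ℕ} {M : Finset ℕ} {N z n : ℕ} (h : n ∈ mz f M N z) : n < z :=
  (mem_Ioo.1 (mem_filter.1 (mem_filter.1 h).1).1).2

open Classical in
noncomputable def Fall (p : ℕ) (D : ℕ → ℕ → Finset ℕ → ℕ) (DD : Set ℕ) (M : Finset ℕ) (N z : ℕ) (T : Finset (ℕ × ℕ)) :
    Finset ℕ :=
  (((Icc 2 z).biUnion (fun n => (B p D T (n - 1)).primeFactors)).filter (fun l => l ∈ DD)) ∪
    ((ZT p D M N z T).biUnion (L p DD)) ∪ L p DD z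

/-- the family at the prime `l` -/
def FA (p : ℕ) (D : ℕ → ℕ → Finset ℕ → ℕ) (DD : Set ℕ) (M : Finset ℕ) (N z : ℕ) (T : Finset (ℕ × ℕ)) (l : ℕ) :
    Set (Finset ℕ) :=
  {S | Cnd p D z T l S ∧ ∀ n ∈ ZT p D M N z T, l ∈ L p DD n → n + 1 ∉ S}

def FB (p : ℕ) (DD : Set ℕ) (z : ℕ) (l : ℕ) : Set (Finset ℕ) := {S | l ∈ L p DD z → z + 1 ∉ S}

lemma Fall_sub {M : Finset ℕ} {N z : ℕ} {T : Finset (ℕ × ℕ)} {l : ℕ} (h : l ∈ Fall p D DD M N z T) : l ∈ DD := by
  classical
  unfold Fall at h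
  rw [mem_union, mem_union, mem_filter, mem_biUnion, mem_biUnion] at h
  rcases h with (⟨_, h⟩ | ⟨n, _, h⟩) | h
  · exact h
  · exact (mem_L.1 h).1
  · exact (mem_L.1 h).1

lemma repr (M : Finset ℕ) (N z m : ℕ) (T : Finset (ℕ × ℕ)) (R : ℕ → Finset ℕ) :
    (tr p D DD R z = T ∧ U p D DD M N z m R) ↔
      UT p D DD N z m T ∧ ∀ l ∈ Fall p D DD M N z T, R l ∈ FA p D DD M N z T l := by
  classical
  constructor
  · rintro ⟨h, h1, h2, h3, h4⟩
    have hAB : ∀ n, n < z → A p D DD R n = B p D T n := by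
      intro n hn
      rw [A_eq_B R z n hn.le, h]
    rw [cz_congr hAB] at h3
    rw [mz_congr hAB] at h4
    obtain ⟨hc, hR⟩ := (tr_eq_iff R z T).1 h
    refine ⟨⟨hc, ?_, h2, h3⟩, ?_⟩
    · rw [← h1, A_eq_B R z z le_rfl, h]
    · intro l hl
      refine ⟨hR l (Fall_sub hl), ?_⟩
      intro n hn hln
      exact h4 n hn l hln
  · rintro ⟨⟨hc, h1, h2, h3⟩, h4⟩
    have htr : tr p D DD R z = T := by
      rw [tr_eq_iff]
      refine ⟨hc, ?_⟩
      intro l hl n hn1 hn2 hln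
      have hlF : l ∈ Fall p D DD M N z T := by
        unfold Fall
        rw [mem_union, mem_union, mem_filter, mem_biUnion]
        left; left
        exact ⟨⟨n, mem_Icc.2 ⟨hn1, hn2⟩, hln⟩, hl⟩
      exact (h4 l hlF).1 n hn1 hn2 hln
    have hAB : ∀ n, n < z → A p D DD R n = B p D T n := by
      intro n hn
      rw [A_eq_B R z n hn.le, htr]
    refine ⟨htr, ?_, h2, ?_, ?_⟩
    · rw [A_eq_B R z z le_rfl, htr, h1]
    · rw [cz_congr hAB, h3]
    · rw [mz_congr hAB]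
      intro n hn l hl
      have hlF : l ∈ Fall p D DD M N z T := by
        unfold Fall
        rw [mem_union, mem_union, mem_biUnion]
        left; right
        exact ⟨n, hn, hl⟩
      exact (h4 l hlF).2 n hn hl

lemma repr_good (M : Finset ℕ) (N z m : ℕ) (T : Finset (ℕ × ℕ)) (R : ℕ → Finset ℕ) :
    ((tr p D DD R z = T ∧ U p D DD M N z m R) ∧ good p DD R z) ↔
      UT p D DD N z m T ∧ ∀ l ∈ Fall p D DD M N z T, R l ∈ FA p D DD M N z T l ∩ FB p DD z l := by
  classical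
  rw [repr]
  constructor
  · rintro ⟨⟨h1, h2⟩, h3⟩
    exact ⟨h1, fun l hl => ⟨h2 l hl, fun hlz => h3 l hlz⟩⟩
  · rintro ⟨h1, h2⟩
    refine ⟨⟨h1, fun l hl => (h2 l hl).1⟩, ?_⟩
    intro l hl
    have hlF : l ∈ Fall p D DD M N z T := by
      unfold Fall
      rw [mem_union, mem_union]
      right
      exact hl
    exact (h2 l hlF).2 hl

/-- the avoided residues for a prime without positive answers -/
lemma FA_eq {M : Finset ℕ} {N z : ℕ} {T : Finset (ℕ × ℕ)} {l : ℕ} (hl : l ∈ L p DD z) (hT : ∀ n, (n, l) ∉ T) :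
    ∃ W : Finset ℕ, W ⊆ range l ∧ z + 1 ∉ W ∧
      FA p D DD M N z T l = {S | Disjoint S W} := by
  classical
  have hzl : z + 1 < l := (mem_L.1 hl).2.1
  refine ⟨((Icc 2 z).filter (fun n => l ∈ (B p D T (n - 1)).primeFactors)) ∪
    (((ZT p D M N z T).filter (fun n => l ∈ L p DD n)).image (fun n => n + 1)), ?_, ?_, ?_⟩
  · intro x hx
    rw [mem_union, mem_filter, mem_image] at hx
    rw [mem_range]
    rcases hx with ⟨hx, _⟩ | ⟨n, hn, rfl⟩
    · have := (mem_Icc.1 hx).2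
      omega
    · have := mz_lt (mem_filter.1 hn).1
      omega
  · intro hx
    rw [mem_union, mem_filter, mem_image] at hx
    rcases hx with ⟨hx, _⟩ | ⟨n, hn, hx⟩
    · have := (mem_Icc.1 hx).2
      omega
    · have := mz_lt (mem_filter.1 hn).1
      omega
  · ext S
    unfold FA
    rw [Set.mem_ofPred_eq, Set.mem_ofPred_eq, disjoint_union_right, disjoint_right, disjoint_right]
    constructor
    · rintro ⟨h1, h2⟩
      constructor
      · intro x hx hxS
        rw [mem_filter, mem_Icc] at hx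
        have h3 := h1 x hx.1.1 hx.1.2 hx.2
        rw [Nat.mod_eq_of_lt (by omega)] at h3
        exact hT x (h3.1 hxS)
      · intro x hx hxS
        rw [mem_image] at hx
        obtain ⟨n, hn, rfl⟩ := hx
        rw [mem_filter] at hn
        exact h2 n hn.1 hn.2 hxS
    · rintro ⟨h1, h2⟩
      constructor
      · intro n hn1 hn2 hln
        rw [Nat.mod_eq_of_lt (by omega)]
        constructor
        · intro h3
          exact absurd h3 (h1 (mem_filter.2 ⟨mem_Icc.2 ⟨hn1, hn2⟩, hln⟩))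
        · intro h3
          exact absurd h3 (hT n)
      · intro n hn hln hS
        exact h2 (mem_image.2 ⟨n, mem_filter.2 ⟨hn, hln⟩, rfl⟩) hS

/-- the model: independent random sets, uniform among the `(p-1)`-subsets of `range l` for `l ∈ DD` -/
structure Model {Ω : Type*} [MeasurableSpace Ω] (μ : Measure Ω) (p : ℕ) (DD : Set ℕ)
    (R : ℕ → Ω → Finset ℕ) : Prop where
  prime : ∀ l ∈ DD, l.Prime ∧ l % p = 1
  meas : ∀ l, Measurable (R l)
  indep : iIndepFun R μ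
  unif : ∀ l ∈ DD, ∀ S : Finset ℕ, S ⊆ range l → S.card = p - 1 →
    μ {ω | R l ω = S} = ((l.choose (p - 1) : ℕ) : ℝ≥0∞)⁻¹

variable {Ω : Type*} [MeasurableSpace Ω] {μ : Measure Ω} [IsProbabilityMeasure μ]
  {R : ℕ → Ω → Finset ℕ}

lemma Model.le (h : Model μ p DD R) {l : ℕ} (hl : l ∈ DD) : p - 1 ≤ l := by
  obtain ⟨h1, h2⟩ := h.prime l hl
  by_contra hcon
  have h3 : l < p := by omega
  rw [Nat.mod_eq_of_lt h3] at h2
  rw [h2] at h1
  exact Nat.not_prime_one h1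

lemma set_eq (M : Finset ℕ) (N z m : ℕ) (T : Finset (ℕ × ℕ)) (h : UT p D DD N z m T) :
    {ω | tr p D DD (fun l => R l ω) z = T ∧ U p D DD M N z m (fun l => R l ω)} =
      ⋂ l ∈ Fall p D DD M N z T, R l ⁻¹' (FA p D DD M N z T l) := by
  ext ω
  rw [Set.mem_ofPred_eq, repr, Set.mem_iInter₂]
  exact ⟨fun h' => h'.2, fun h' => ⟨h, h'⟩⟩

lemma set_eq_good (M : Finset ℕ) (N z m : ℕ) (T : Finset (ℕ × ℕ)) (h : UT p D DD N z m T) :
    {ω | (tr p D DD (fun l => R l ω) z = T ∧ U p D DD M N z m (fun l => R l ω)) ∧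
        good p DD (fun l => R l ω) z} =
      ⋂ l ∈ Fall p D DD M N z T, R l ⁻¹' (FA p D DD M N z T l ∩ FB p DD z l) := by
  ext ω
  rw [Set.mem_ofPred_eq, repr_good, Set.mem_iInter₂]
  exact ⟨fun h' => h'.2, fun h' => ⟨h, h'⟩⟩

lemma set_empty (M : Finset ℕ) (N z m : ℕ) (T : Finset (ℕ × ℕ)) (h : ¬ UT p D DD N z m T) :
    {ω | tr p D DD (fun l => R l ω) z = T ∧ U p D DD M N z m (fun l => R l ω)} = ∅ := by
  ext ω
  rw [Set.mem_ofPred_eq, repr, Set.mem_empty_iff_false]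
  exact ⟨fun h' => h h'.1, fun h' => h'.elim⟩

lemma meas_set (hM : Model μ p DD R) (M : Finset ℕ) (N z m : ℕ) (T : Finset (ℕ × ℕ)) :
    MeasurableSet {ω | tr p D DD (fun l => R l ω) z = T ∧ U p D DD M N z m (fun l => R l ω)} := by
  by_cases h : UT p D DD N z m T
  · rw [set_eq M N z m T h]
    exact Finset.measurableSet_biInter _ fun l _ => hM.meas l trivial
  · rw [set_empty M N z m T h]
    exact MeasurableSet.empty

open Classical in
/-- one step, for one transcript -/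
lemma step_T (hM : Model μ p DD R) (M : Finset ℕ) (N z m : ℕ) (T : Finset (ℕ × ℕ)) (Q : ℝ≥0∞)
    (hQ : UT p D DD N z m T → ∏ l ∈ (L p DD z).filter (fun l => ∀ n, (n, l) ∉ T),
      ENNReal.ofReal (1 - ((p - 1 : ℕ) : ℝ) / l) ≤ Q) :
    μ {ω | (tr p D DD (fun l => R l ω) z = T ∧ U p D DD M N z m (fun l => R l ω)) ∧
        good p DD (fun l => R l ω) z} ≤
      Q * μ {ω | tr p D DD (fun l => R l ω) z = T ∧ U p D DD M N z m (fun l => R l ω)} := by
  by_cases h : UT p D DD N z m T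
  swap
  · have h1 : {ω | (tr p D DD (fun l => R l ω) z = T ∧ U p D DD M N z m (fun l => R l ω)) ∧
        good p DD (fun l => R l ω) z} ⊆
        {ω | tr p D DD (fun l => R l ω) z = T ∧ U p D DD M N z m (fun l => R l ω)} := fun ω hω => hω.1
    rw [set_empty M N z m T h] at h1 ⊢
    rw [Set.subset_empty_iff] at h1
    rw [h1]
    simp
  rw [set_eq_good M N z m T h, set_eq M N z m T h,
    hM.indep.measure_inter_preimage_eq_mul _ (fun l _ => trivial),
    hM.indep.measure_inter_preimage_eq_mul _ (fun l _ => trivial)]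
  have hterm : ∀ l ∈ Fall p D DD M N z T, μ (R l ⁻¹' (FA p D DD M N z T l ∩ FB p DD z l)) ≤
      (if l ∈ L p DD z ∧ ∀ n, (n, l) ∉ T then ENNReal.ofReal (1 - ((p - 1 : ℕ) : ℝ) / l) else 1) *
        μ (R l ⁻¹' (FA p D DD M N z T l)) := by
    intro l hl
    have hlD := Fall_sub hl
    by_cases hc : l ∈ L p DD z ∧ ∀ n, (n, l) ∉ T
    · rw [if_pos hc]
      obtain ⟨W, hW1, hW2, hW3⟩ := FA_eq (D := D) (M := M) (N := N) hc.1 hc.2
      have h1 := unif_step μ (R l) (hM.meas l) l (p - 1) (hM.le hlD) (hM.unif l hlD) W hW1 (z + 1)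
        (mem_L.1 hc.1).2.1 hW2
      have e1 : R l ⁻¹' (FA p D DD M N z T l ∩ FB p DD z l) = {ω | Disjoint (R l ω) W ∧ z + 1 ∉ R l ω} := by
        rw [hW3]
        ext ω
        constructor
        · rintro ⟨h1, h2⟩
          exact ⟨h1, h2 hc.1⟩
        · rintro ⟨h1, h2⟩
          exact ⟨h1, fun _ => h2⟩
      have e2 : R l ⁻¹' (FA p D DD M N z T l) = {ω | Disjoint (R l ω) W} := by
        rw [hW3]
        rfl
      rw [e1, e2]
      exact h1
    · rw [if_neg hc, one_mul]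
      exact measure_mono (Set.preimage_mono Set.inter_subset_left)
  refine (Finset.prod_le_prod' hterm).trans ?_
  rw [Finset.prod_mul_distrib]
  apply mul_le_mul_left
  refine le_trans (le_of_eq ?_) (hQ h)
  rw [← Finset.prod_filter]
  apply Finset.prod_congr _ (fun _ _ => rfl)
  ext l
  rw [mem_filter, mem_filter]
  constructor
  · rintro ⟨_, h2⟩
    exact h2
  · rintro h2
    refine ⟨?_, h2⟩
    unfold Fall
    rw [mem_union]
    right
    exact h2.1

end Pool.Agent.L5helper2.GR
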