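import Mathlib
import Pool.Agent.L5helper2.GR.Step

set_option autoImplicit false

namespace Pool.Agent.L5helper2.GR

open Finset MeasureTheory ProbabilityTheory Filter
open scoped ENNReal Topology

variable {p : ℕ} {D : ℕ → ℕ → Finset ℕ → ℕ} {DD : Set ℕ}

/-- among the first `m` zeros after `N`, those with rank in `S` are good -/
def Bad (p : ℕ) (D : ℕ → ℕ → Finset ℕ → ℕ) (DD : Set ℕ) (S : Finset ℕ) (N m : ℕ) (R : ℕ → Finset ℕ) : Prop :=
  ∃ e : ℕ, (cz (A p D DD R) N e).card = m ∧ ∀ n ∈ mz (A p D DD R) S N e, good p DD R n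

lemma mem_cz {f : ℕ → ℕ} {N e n : ℕ} : n ∈ cz f N e ↔ (N < n ∧ n < e) ∧ f n = 0 := by
  unfold cz
  rw [mem_filter, mem_Ioo]

lemma mem_mz {f : ℕ → ℕ} {S : Finset ℕ} {N e n : ℕ} :
    n ∈ mz f S N e ↔ ((N < n ∧ n < e) ∧ f n = 0) ∧ (cz f N n).card ∈ S := by
  unfold mz
  rw [mem_filter, mem_cz]

lemma bad_succ {S : Finset ℕ} {R : ℕ → Finset ℕ} {N m : ℕ} (h : Bad p D DD S N (m + 1) R) :
    ∃ z : ℕ, U p D DD S N z m R ∧ (m ∈ S → good p DD R z) := by
  obtain ⟨e, h1, h2⟩ := h
  have hne : (cz (A p D DD R) N e).Nonempty := by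
    rw [← card_pos, h1]
    omega
  set z := (cz (A p D DD R) N e).max' hne with hz
  have hzm : z ∈ cz (A p D DD R) N e := max'_mem _ _
  have hzm' := mem_cz.1 hzm
  have he : cz (A p D DD R) N z = (cz (A p D DD R) N e).erase z := by
    ext n
    rw [mem_cz, mem_erase, mem_cz]
    constructor
    · rintro ⟨⟨h3, h4⟩, h5⟩
      exact ⟨h4.ne, ⟨h3, h4.trans hzm'.1.2⟩, h5⟩
    · rintro ⟨h3, ⟨h4, h5⟩, h6⟩
      refine ⟨⟨h4, ?_⟩, h6⟩
      exact lt_of_le_of_ne (le_max' _ _ (mem_cz.2 ⟨⟨h4, h5⟩, h6⟩)) h3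
  have hc : (cz (A p D DD R) N z).card = m := by
    rw [he, card_erase_of_mem hzm, h1]
    omega
  refine ⟨z, ⟨hzm'.2, hzm'.1.1, hc, ?_⟩, ?_⟩
  · intro n hn
    apply h2 n
    rw [mem_mz] at hn ⊢
    exact ⟨⟨⟨hn.1.1.1, hn.1.1.2.trans hzm'.1.2⟩, hn.1.2⟩, hn.2⟩
  · intro hmS
    apply h2 z
    rw [mem_mz, hc]
    exact ⟨hzm', hmS⟩

lemma U_bad {S : Finset ℕ} {R : ℕ → Finset ℕ} {N z m : ℕ} (h : U p D DD S N z m R) :
    Bad p D DD S N m R := ⟨z, h.2.2.1, h.2.2.2⟩

lemma rank_inj {f : ℕ → ℕ} {N z z' m : ℕ} (h0 : f z = 0) (hN : N < z) (h : (cz f N z).card = m)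
    (h0' : f z' = 0) (hN' : N < z') (h' : (cz f N z').card = m) : z = z' := by
  have key : ∀ z z' : ℕ, f z = 0 → N < z → (cz f N z).card = m → f z' = 0 → N < z' →
      (cz f N z').card = m → ¬ z < z' := by
    intro z z' h1 h2 h3 h1' h2' h3' hlt
    have hsub : insert z (cz f N z) ⊆ cz f N z' := by
      intro n hn
      rw [mem_cz]
      rcases mem_insert.1 hn with rfl | hn
      · exact ⟨⟨h2, hlt⟩, h1⟩
      · rw [mem_cz] at hn
        exact ⟨⟨hn.1.1, hn.1.2.trans hlt⟩, hn.2⟩
    have h5 := card_le_card hsub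
    rw [card_insert_of_notMem (by rw [mem_cz]; omega), h3, h3'] at h5
    omega
  rcases lt_trichotomy z z' with h1 | h1 | h1
  · exact absurd h1 (key z z' h0 hN h h0' hN' h')
  · exact h1
  · exact absurd h1 (key z' z h0' hN' h' h0 hN h)

lemma U_disj {S : Finset ℕ} {R : ℕ → Finset ℕ} {N z z' m : ℕ} (h : U p D DD S N z m R)
    (h' : U p D DD S N z' m R) : z = z' :=
  rank_inj h.1 h.2.1 h.2.2.1 h'.1 h'.2.1 h'.2.2.1

variable {Ω : Type*} [MeasurableSpace Ω] {μ : Measure Ω} [IsProbabilityMeasure μ]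
  {R : ℕ → Ω → Finset ℕ}

lemma U_union (S : Finset ℕ) (N z m : ℕ) : {ω | U p D DD S N z m (fun l => R l ω)} =
    ⋃ T : Finset (ℕ × ℕ), {ω | tr p D DD (fun l => R l ω) z = T ∧ U p D DD S N z m (fun l => R l ω)} := by
  ext ω
  rw [Set.mem_iUnion]
  constructor
  · intro h
    exact ⟨_, rfl, h⟩
  · rintro ⟨T, _, h⟩
    exact h

lemma meas_U (hM : Model μ p DD R) (S : Finset ℕ) (N z m : ℕ) :
    MeasurableSet {ω | U p D DD S N z m (fun l => R l ω)} := by
  rw [U_union]
  exact MeasurableSet.iUnion fun T => meas_set hM S N z m T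

lemma mu_U (hM : Model μ p DD R) (S : Finset ℕ) (N z m : ℕ) :
    μ {ω | U p D DD S N z m (fun l => R l ω)} =
    ∑' T : Finset (ℕ × ℕ), μ {ω | tr p D DD (fun l => R l ω) z = T ∧ U p D DD S N z m (fun l => R l ω)} := by
  rw [U_union, measure_iUnion]
  · intro T T' hne
    rw [Function.onFun, Set.disjoint_left]
    rintro ω ⟨h1, _⟩ ⟨h2, _⟩
    exact hne (h1.symm.trans h2)
  · exact fun T => meas_set hM S N z m T

open Classical in
lemma step_U (hM : Model μ p DD R) (S : Finset ℕ) (N z m : ℕ) (Q : ℝ≥0∞)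
    (hQ : ∀ T : Finset (ℕ × ℕ), Cons p D DD z T → ∏ l ∈ (L p DD z).filter (fun l => ∀ n, (n, l) ∉ T),
      ENNReal.ofReal (1 - ((p - 1 : ℕ) : ℝ) / l) ≤ Q) :
    μ {ω | U p D DD S N z m (fun l => R l ω) ∧ good p DD (fun l => R l ω) z} ≤
      Q * μ {ω | U p D DD S N z m (fun l => R l ω)} := by
  rw [mu_U hM, ← ENNReal.tsum_mul_left]
  calc μ {ω | U p D DD S N z m (fun l => R l ω) ∧ good p DD (fun l => R l ω) z}
      ≤ μ (⋃ T : Finset (ℕ × ℕ), {ω | (tr p D DD (fun l => R l ω) z = T ∧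
          U p D DD S N z m (fun l => R l ω)) ∧ good p DD (fun l => R l ω) z}) := by
        apply measure_mono
        rintro ω ⟨h1, h2⟩
        rw [Set.mem_iUnion]
        exact ⟨_, ⟨rfl, h1⟩, h2⟩
    _ ≤ ∑' T : Finset (ℕ × ℕ), μ {ω | (tr p D DD (fun l => R l ω) z = T ∧
          U p D DD S N z m (fun l => R l ω)) ∧ good p DD (fun l => R l ω) z} := measure_iUnion_le _
    _ ≤ _ := ENNReal.tsum_le_tsum fun T => step_T hM S N z m T Q (fun h => hQ T h.1)

open Classical in
/-- the hypothesis on the products -/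
def HQ (p : ℕ) (D : ℕ → ℕ → Finset ℕ → ℕ) (DD : Set ℕ) (N0 : ℕ) (Q : ℝ≥0∞) : Prop :=
  ∀ z : ℕ, N0 ≤ z → ∀ T : Finset (ℕ × ℕ), Cons p D DD z T →
      ∏ l ∈ (L p DD z).filter (fun l => ∀ n, (n, l) ∉ T),
        ENNReal.ofReal (1 - ((p - 1 : ℕ) : ℝ) / l) ≤ Q

theorem bad_bound (hM : Model μ p DD R) (N0 : ℕ) (Q : ℝ≥0∞) (hQ : HQ p D DD N0 Q)
    (N : ℕ) (hN : N0 ≤ N) (S : Finset ℕ) (m : ℕ) :
    μ {ω | Bad p D DD S N m (fun l => R l ω)} ≤ Q ^ (S.filter (fun k => k < m)).card := by
  classical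
  induction m with
  | zero =>
    have h0 : S.filter (fun k => k < 0) = ∅ := by
      ext k
      simp
    rw [h0, card_empty, pow_zero]
    exact prob_le_one
  | succ m ih =>
    by_cases hmS : m ∈ S
    · have hcard : (S.filter (fun k => k < m + 1)).card = (S.filter (fun k => k < m)).card + 1 := by
        have h1 : S.filter (fun k => k < m + 1) = insert m (S.filter (fun k => k < m)) := by
          ext k
          rw [mem_filter, mem_insert, mem_filter]
          constructor
          · rintro ⟨h1, h2⟩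
            by_cases h3 : k = m
            · exact Or.inl h3
            · exact Or.inr ⟨h1, by omega⟩
          · rintro (rfl | ⟨h1, h2⟩)
            · exact ⟨hmS, by omega⟩
            · exact ⟨h1, by omega⟩
        rw [h1, card_insert_of_notMem (by simp)]
      rw [hcard]
      calc μ {ω | Bad p D DD S N (m + 1) (fun l => R l ω)}
          ≤ μ (⋃ z : ℕ, {ω | U p D DD S N z m (fun l => R l ω) ∧ good p DD (fun l => R l ω) z}) := by
            apply measure_mono
            intro ω hω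
            rw [Set.mem_iUnion]
            obtain ⟨z, h1, h2⟩ := bad_succ hω
            exact ⟨z, h1, h2 hmS⟩
        _ ≤ ∑' z : ℕ, μ {ω | U p D DD S N z m (fun l => R l ω) ∧ good p DD (fun l => R l ω) z} :=
            measure_iUnion_le _
        _ ≤ ∑' z : ℕ, Q * μ {ω | U p D DD S N z m (fun l => R l ω)} := by
            apply ENNReal.tsum_le_tsum
            intro z
            by_cases hz : N0 ≤ z
            · exact step_U hM S N z m Q (hQ z hz)
            · have h0 : {ω | U p D DD S N z m (fun l => R l ω) ∧ good p DD (fun l => R l ω) z} = ∅ := by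
                ext ω
                rw [Set.mem_empty_iff_false]
                constructor
                · rintro ⟨⟨_, h2, _⟩, _⟩
                  omega
                · exact fun h => h.elim
              rw [h0]
              simp
        _ = Q * μ (⋃ z : ℕ, {ω | U p D DD S N z m (fun l => R l ω)}) := by
            rw [ENNReal.tsum_mul_left, measure_iUnion]
            · intro z z' hne
              rw [Function.onFun, Set.disjoint_left]
              intro ω h1 h2
              exact hne (U_disj h1 h2)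
            · exact fun z => meas_U hM S N z m
        _ ≤ Q * μ {ω | Bad p D DD S N m (fun l => R l ω)} := by
            apply mul_le_mul_right
            apply measure_mono
            intro ω hω
            rw [Set.mem_iUnion] at hω
            obtain ⟨z, hz⟩ := hω
            exact U_bad hz
        _ ≤ Q * Q ^ (S.filter (fun k => k < m)).card := mul_le_mul_right ih _
        _ = Q ^ ((S.filter (fun k => k < m)).card + 1) := by rw [pow_succ, mul_comm]
    · have h1 : S.filter (fun k => k < m + 1) = S.filter (fun k => k < m) := by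
        apply filter_congr
        intro k hk
        constructor
        · intro h
          have : k ≠ m := fun h' => hmS (h' ▸ hk)
          omega
        · intro h
          omega
      rw [h1]
      refine (measure_mono ?_).trans ih
      intro ω hω
      obtain ⟨z, h1, _⟩ := bad_succ hω
      exact U_bad h1

lemma exists_e (R : ℕ → Finset ℕ) (N m : ℕ) : ∃ e : ℕ, N ≤ e ∧ (cz (A p D DD R) N e).card = m := by
  induction m with
  | zero =>
    refine ⟨N, le_rfl, ?_⟩
    unfold cz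
    simp
  | succ m ih =>
    obtain ⟨e, he1, he2⟩ := ih
    have hex : ∃ n : ℕ, (e ≤ n ∧ N < n) ∧ A p D DD R n = 0 := by
      obtain ⟨n, h1, h2⟩ := zero_exists (p := p) (D := D) (DD := DD) R e
      exact ⟨n, ⟨by omega, by omega⟩, h2⟩
    classical
    set z := Nat.find hex with hz
    obtain ⟨h1, h2⟩ : (e ≤ z ∧ N < z) ∧ A p D DD R z = 0 := Nat.find_spec hex
    refine ⟨z + 1, by omega, ?_⟩
    have he : cz (A p D DD R) N (z + 1) = insert z (cz (A p D DD R) N e) := by
      ext n
      rw [mem_insert, mem_cz, mem_cz]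
      constructor
      · rintro ⟨⟨h3, h4⟩, h5⟩
        by_cases h6 : n < e
        · right
          exact ⟨⟨h3, h6⟩, h5⟩
        · left
          have h7 := Nat.find_min' hex (⟨⟨by omega, h3⟩, h5⟩ : (e ≤ n ∧ N < n) ∧ A p D DD R n = 0)
          omega
      · rintro (rfl | ⟨⟨h3, h4⟩, h5⟩)
        · exact ⟨⟨by omega, by omega⟩, h2⟩
        · exact ⟨⟨h3, by omega⟩, h5⟩
    rw [he, card_insert_of_notMem, he2]
    intro h3
    have := (mem_cz.1 h3).1.2
    omega

/-- the zero of rank `k` after `N` is good -/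
def gk (p : ℕ) (D : ℕ → ℕ → Finset ℕ → ℕ) (DD : Set ℕ) (N k : ℕ) (R : ℕ → Finset ℕ) : Prop :=
  ∀ n, N < n → A p D DD R n = 0 → (cz (A p D DD R) N n).card = k → good p DD R n

theorem gk_bound (hM : Model μ p DD R) (N0 : ℕ) (Q : ℝ≥0∞) (hQ : HQ p D DD N0 Q)
    (N : ℕ) (hN : N0 ≤ N) (S : Finset ℕ) :
    μ {ω | ∀ k ∈ S, gk p D DD N k (fun l => R l ω)} ≤ Q ^ S.card := by
  classical
  have h1 : S.filter (fun k => k < S.sup id + 1) = S := by
    apply filter_true_of_mem
    intro k hk
    have := le_sup (f := id) hk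
    simp only [id] at this
    omega
  refine (measure_mono ?_).trans ((bad_bound hM N0 Q hQ N hN S (S.sup id + 1)).trans (by rw [h1]))
  intro ω hω
  obtain ⟨e, _, he⟩ := exists_e (p := p) (D := D) (DD := DD) (fun l => R l ω) N (S.sup id + 1)
  refine ⟨e, he, ?_⟩
  intro n hn
  rw [mem_mz] at hn
  exact hω _ hn.2 n hn.1.1.1 hn.1.2 rfl

lemma meas_tr (hM : Model μ p DD R) (z : ℕ) (T : Finset (ℕ × ℕ)) :
    MeasurableSet {ω | tr p D DD (fun l => R l ω) z = T} := by
  classical
  by_cases hc : Cons p D DD z T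
  · have h1 : {ω | tr p D DD (fun l => R l ω) z = T} =
        ⋂ l ∈ DD, R l ⁻¹' {S | Cnd p D z T l S} := by
      ext ω
      rw [Set.mem_ofPred_eq, tr_eq_iff, Set.mem_iInter₂]
      exact ⟨fun h => h.2, fun h => ⟨hc, h⟩⟩
    rw [h1]
    exact MeasurableSet.biInter (Set.to_countable DD) fun l _ => hM.meas l trivial
  · have h1 : {ω | tr p D DD (fun l => R l ω) z = T} = ∅ := by
      ext ω
      rw [Set.mem_ofPred_eq, tr_eq_iff, Set.mem_empty_iff_false]
      exact ⟨fun h => hc h.1, fun h => h.elim⟩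
    rw [h1]
    exact MeasurableSet.empty

lemma meas_good (hM : Model μ p DD R) (n : ℕ) :
    MeasurableSet {ω | good p DD (fun l => R l ω) n} := by
  have h1 : {ω | good p DD (fun l => R l ω) n} = ⋂ l ∈ L p DD n, R l ⁻¹' {S | n + 1 ∉ S} := by
    ext ω
    rw [Set.mem_ofPred_eq, Set.mem_iInter₂]
    rfl
  rw [h1]
  exact Finset.measurableSet_biInter _ fun l _ => hM.meas l trivial

lemma meas_rank (hM : Model μ p DD R) (N n k : ℕ) :
    MeasurableSet {ω | A p D DD (fun l => R l ω) n = 0 ∧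
      (cz (A p D DD (fun l => R l ω)) N n).card = k} := by
  have h1 : {ω | A p D DD (fun l => R l ω) n = 0 ∧ (cz (A p D DD (fun l => R l ω)) N n).card = k} =
      ⋃ T ∈ {T : Finset (ℕ × ℕ) | B p D T n = 0 ∧ (cz (B p D T) N n).card = k},
        {ω | tr p D DD (fun l => R l ω) n = T} := by
    ext ω
    rw [Set.mem_ofPred_eq, Set.mem_iUnion₂]
    have hAB : ∀ j, j ≤ n → A p D DD (fun l => R l ω) j =
        B p D (tr p D DD (fun l => R l ω) n) j := A_eq_B (fun l => R l ω) n
    constructor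
    · rintro ⟨h1, h2⟩
      refine ⟨_, ⟨?_, ?_⟩, rfl⟩
      · rw [← hAB n le_rfl, h1]
      · rw [← h2, cz_congr (fun j hj => hAB j hj.le)]
    · rintro ⟨T, ⟨h1, h2⟩, h3⟩
      have h3' : tr p D DD (fun l => R l ω) n = T := h3
      rw [h3'] at hAB
      refine ⟨?_, ?_⟩
      · rw [hAB n le_rfl, h1]
      · rw [cz_congr (fun j hj => hAB j hj.le), h2]
  rw [h1]
  exact MeasurableSet.biUnion (Set.to_countable _) fun T _ => meas_tr hM n T

lemma meas_gk (hM : Model μ p DD R) (N k : ℕ) :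
    MeasurableSet {ω | gk p D DD N k (fun l => R l ω)} := by
  have h1 : {ω | gk p D DD N k (fun l => R l ω)} = ⋂ n : ℕ, ⋂ _ : N < n,
      ({ω | A p D DD (fun l => R l ω) n = 0 ∧
        (cz (A p D DD (fun l => R l ω)) N n).card = k}ᶜ ∪ {ω | good p DD (fun l => R l ω) n}) := by
    ext ω
    rw [Set.mem_iInter₂]
    constructor
    · intro h n hn
      by_cases h1 : A p D DD (fun l => R l ω) n = 0 ∧ (cz (A p D DD (fun l => R l ω)) N n).card = k
      · right
        exact h n hn h1.1 h1.2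
      · left
        exact h1
    · intro h n hn h1 h2
      rcases h n hn with h3 | h3
      · exact absurd ⟨h1, h2⟩ h3
      · exact h3
  rw [h1]
  exact MeasurableSet.iInter fun n => MeasurableSet.iInter fun _ =>
    (meas_rank hM N n k).compl.union (meas_good hM n)

end Pool.Agent.L5helper2.GR
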