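import Mathlib
import Pool.Agent.L5helper2.GR.Bad

set_option autoImplicit false

namespace Pool.Agent.L5helper2.GR

open Finset MeasureTheory ProbabilityTheory Filter
open scoped ENNReal Topology

variable {p : ℕ} {D : ℕ → ℕ → Finset ℕ → ℕ} {DD : Set ℕ}

lemma A_le (hp : 1 ≤ p) (R : ℕ → Finset ℕ) (n : ℕ) (hn : 1 ≤ n) : A p D DD R n ≤ n ^ p := by
  rw [A_eq_B R n n le_rfl]
  exact B_le hp _ n hn

lemma no_zero_le (hp : 1 ≤ p) (R : ℕ → Finset ℕ) (N z : ℕ) (hz : N < z)
    (hcon : ∀ n, N < n → n < z → A p D DD R n ≠ 0) : z ≤ N + 1 + (N + 1) ^ p := by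
  have h1 : ∀ k : ℕ, N + 1 + k ≤ z → A p D DD R (N + 1 + k) + k ≤ A p D DD R (N + 1) := by
    intro k
    induction k with
    | zero => simp
    | succ k ih =>
      intro hk
      have ih := ih (by omega)
      have h0 : A p D DD R (N + 1 + k) ≠ 0 := hcon _ (by omega) (by omega)
      have e1 : N + 1 + (k + 1) = (N + k) + 2 := by ring
      have e2 : N + 1 + k = (N + k) + 1 := by ring
      rw [e1, A_succ]
      rw [e2] at ih h0
      have h2 : st p D (hits DD R (A p D DD R (N + k + 1)) (N + k + 2)) (A p D DD R (N + k + 1)) (N + k + 2) + 1 ≤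
          A p D DD R (N + k + 1) := by
        unfold st
        rw [if_neg h0]
        have h3 : 0 < Nat.gcd (A p D DD R (N + k + 1)) (D (N + k + 2) (A p D DD R (N + k + 1))
            (hits DD R (A p D DD R (N + k + 1)) (N + k + 2))) :=
          Nat.gcd_pos_of_pos_left _ (Nat.pos_of_ne_zero h0)
        have h4 := Nat.gcd_le_left (D (N + k + 2) (A p D DD R (N + k + 1))
            (hits DD R (A p D DD R (N + k + 1)) (N + k + 2))) (Nat.pos_of_ne_zero h0)
        omega
      omega
  have h2 := h1 (z - N - 1) (by omega)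
  have h3 := A_le (D := D) (DD := DD) hp R (N + 1) (by omega)
  omega

lemma grow (hp : 1 ≤ p) (x : ℕ) : x + 1 + (x + 1) ^ p + 2 ≤ (x + 2) ^ (p + 1) := by
  have h1 : (x + 1) ^ p < (x + 2) ^ p := Nat.pow_lt_pow_left (by omega) (by omega)
  have h2 : x + 2 ≤ (x + 2) ^ p := by
    calc x + 2 = (x + 2) ^ 1 := by ring
      _ ≤ (x + 2) ^ p := Nat.pow_le_pow_right (by omega) hp
  have h3 : (x + 2) ^ (p + 1) = (x + 2) ^ p + (x + 1) * (x + 2) ^ p := by ring
  have h4 : (x + 1) * (x + 2) ≤ (x + 1) * (x + 2) ^ p := Nat.mul_le_mul_left _ h2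
  nlinarith

/-- the zero of rank `m` after `N` is at most this -/
lemma rank_le (hp : 1 ≤ p) (R : ℕ → Finset ℕ) (N : ℕ) (m : ℕ) : ∀ z : ℕ, N < z →
    (cz (A p D DD R) N z).card = m → z + 2 ≤ (N + 2) ^ ((p + 1) ^ (m + 1)) := by
  induction m with
  | zero =>
    intro z hz hc
    rw [card_eq_zero] at hc
    have h1 := no_zero_le (D := D) (DD := DD) hp R N z hz (fun n h1 h2 h3 => by
      have : n ∈ cz (A p D DD R) N z := mem_cz.2 ⟨⟨h1, h2⟩, h3⟩
      rw [hc] at this
      exact absurd this (notMem_empty n))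
    have h2 := grow hp N
    rw [zero_add, pow_one]
    omega
  | succ m ih =>
    intro z hz hc
    have hne : (cz (A p D DD R) N z).Nonempty := by
      rw [← card_pos, hc]
      omega
    set y := (cz (A p D DD R) N z).max' hne with hy
    have hym : y ∈ cz (A p D DD R) N z := max'_mem _ _
    have hym' := mem_cz.1 hym
    have he : cz (A p D DD R) N y = (cz (A p D DD R) N z).erase y := by
      ext n
      rw [mem_cz, mem_erase, mem_cz]
      constructor
      · rintro ⟨⟨h3, h4⟩, h5⟩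
        exact ⟨h4.ne, ⟨h3, h4.trans hym'.1.2⟩, h5⟩
      · rintro ⟨h3, ⟨h4, h5⟩, h6⟩
        refine ⟨⟨h4, ?_⟩, h6⟩
        exact lt_of_le_of_ne (le_max' _ _ (mem_cz.2 ⟨⟨h4, h5⟩, h6⟩)) h3
    have hcy : (cz (A p D DD R) N y).card = m := by
      rw [he, card_erase_of_mem hym, hc]
      omega
    have h1 := ih y hym'.1.1 hcy
    have h2 := no_zero_le (D := D) (DD := DD) hp R y z hym'.1.2 (fun n h1 h2 h3 => by
      have h4 : n ∈ cz (A p D DD R) N z := mem_cz.2 ⟨⟨hym'.1.1.trans h1, h2⟩, h3⟩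
      have h5 := le_max' _ _ h4
      omega)
    have h3 := grow hp y
    have h4 : (y + 2) ^ (p + 1) ≤ ((N + 2) ^ ((p + 1) ^ (m + 1))) ^ (p + 1) := Nat.pow_le_pow_left h1 _
    rw [← pow_mul, ← pow_succ] at h4
    omega

variable {Ω : Type*} [MeasurableSpace Ω] {μ : Measure Ω} [IsProbabilityMeasure μ]
  {R : ℕ → Ω → Finset ℕ}

open Classical in
/-- the hypothesis on the products, depending on the rank -/
def HV (p : ℕ) (D : ℕ → ℕ → Finset ℕ → ℕ) (DD : Set ℕ) (N : ℕ) (Q : ℕ → ℝ≥0∞) : Prop :=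
  ∀ m z : ℕ, N < z → z + 2 ≤ (N + 2) ^ ((p + 1) ^ (m + 1)) → ∀ T : Finset (ℕ × ℕ), Cons p D DD z T →
      ∏ l ∈ (L p DD z).filter (fun l => ∀ n, (n, l) ∉ T),
        ENNReal.ofReal (1 - ((p - 1 : ℕ) : ℝ) / l) ≤ Q m

theorem bad_bound_var (hM : Model μ p DD R) (hp : 1 ≤ p) (N : ℕ) (Q : ℕ → ℝ≥0∞) (hQ : HV p D DD N Q)
    (m : ℕ) :
    μ {ω | Bad p D DD (range m) N m (fun l => R l ω)} ≤ ∏ i ∈ range m, Q i := by
  classical
  -- the set of the ranks may be larger
  suffices h : ∀ (S : Finset ℕ) (m : ℕ), (∀ i, i < m → i ∈ S) →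
      μ {ω | Bad p D DD S N m (fun l => R l ω)} ≤ ∏ i ∈ range m, Q i from
    h (range m) m (fun i hi => mem_range.2 hi)
  intro S m
  induction m with
  | zero =>
    intro _
    rw [range_zero, prod_empty]
    exact prob_le_one
  | succ m ih =>
    intro hS
    have ih := ih (fun i hi => hS i (by omega))
    have hmS : m ∈ S := hS m (by omega)
    rw [prod_range_succ]
    calc μ {ω | Bad p D DD S N (m + 1) (fun l => R l ω)}
        ≤ μ (⋃ z : ℕ, {ω | U p D DD S N z m (fun l => R l ω) ∧ good p DD (fun l => R l ω) z}) := by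
          apply measure_mono
          intro ω hω
          rw [Set.mem_iUnion]
          obtain ⟨z, h1, h2⟩ := bad_succ hω
          exact ⟨z, h1, h2 hmS⟩
      _ ≤ ∑' z : ℕ, μ {ω | U p D DD S N z m (fun l => R l ω) ∧ good p DD (fun l => R l ω) z} :=
          measure_iUnion_le _
      _ ≤ ∑' z : ℕ, Q m * μ {ω | U p D DD S N z m (fun l => R l ω)} := by
          apply ENNReal.tsum_le_tsum
          intro z
          by_cases hz : N < z ∧ z + 2 ≤ (N + 2) ^ ((p + 1) ^ (m + 1))
          · exact step_U hM S N z m (Q m) (hQ m z hz.1 hz.2)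
          · have h0 : {ω | U p D DD S N z m (fun l => R l ω) ∧ good p DD (fun l => R l ω) z} = ∅ := by
              ext ω
              rw [Set.mem_empty_iff_false]
              constructor
              · rintro ⟨⟨_, h2, h3, _⟩, _⟩
                exact hz ⟨h2, rank_le hp _ N m z h2 h3⟩
              · exact fun h => h.elim
            rw [h0]
            simp
      _ = Q m * μ (⋃ z : ℕ, {ω | U p D DD S N z m (fun l => R l ω)}) := by
          rw [ENNReal.tsum_mul_left, measure_iUnion]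
          · intro z z' hne
            rw [Function.onFun, Set.disjoint_left]
            intro ω h1 h2
            exact hne (U_disj h1 h2)
          · exact fun z => meas_U hM S N z m
      _ ≤ Q m * μ {ω | Bad p D DD S N m (fun l => R l ω)} := by
          apply mul_le_mul_right
          apply measure_mono
          intro ω hω
          rw [Set.mem_iUnion] at hω
          obtain ⟨z, hz⟩ := hω
          exact U_bad hz
      _ ≤ Q m * ∏ i ∈ range m, Q i := mul_le_mul_right ih _
      _ = (∏ i ∈ range m, Q i) * Q m := by rw [mul_comm]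

/-- almost surely some zero after `N` is not good -/
theorem ae_not_good (hM : Model μ p DD R) (hp : 1 ≤ p) (N : ℕ) (Q : ℕ → ℝ≥0∞) (hQ : HV p D DD N Q)
    (h0 : Tendsto (fun m => ∏ i ∈ range m, Q i) atTop (𝓝 0)) :
    ∀ᵐ ω ∂μ, ∃ n, N < n ∧ A p D DD (fun l => R l ω) n = 0 ∧ ¬ good p DD (fun l => R l ω) n := by
  rw [ae_iff]
  have h1 : ∀ m : ℕ, μ {ω | ¬ ∃ n, N < n ∧ A p D DD (fun l => R l ω) n = 0 ∧ ¬ good p DD (fun l => R l ω) n} ≤
      ∏ i ∈ range m, Q i := by
    intro m
    refine (measure_mono ?_).trans (bad_bound_var hM hp N Q hQ m)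
    intro ω hω
    obtain ⟨e, _, he⟩ := exists_e (p := p) (D := D) (DD := DD) (fun l => R l ω) N m
    refine ⟨e, he, ?_⟩
    intro n hn
    rw [mem_mz] at hn
    by_contra hg
    exact hω ⟨n, hn.1.1.1, hn.1.2, hg⟩
  exact le_antisymm (ge_of_tendsto' h0 h1) (zero_le)

end Pool.Agent.L5helper2.GR
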