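import Mathlib

set_option autoImplicit false

namespace Pool.Agent.L5helper2.GR

open Finset MeasureTheory Filter
open scoped ENNReal Topology

lemma rate_lt {q α : ℝ} (h0 : 0 ≤ q) (h1 : q ≤ 1) (h : q < α) :
    (1 + (α - q) * q) < (1 + (α - q)) ^ α := by
  have ht : 0 < α - q := by linarith
  have hα : 0 < α := by linarith
  have e1 : Real.log (1 + (α - q) * q) ≤ (α - q) * q := by
    have := Real.log_le_sub_one_of_pos (x := 1 + (α - q) * q) (by positivity)
    linarith
  have e2 : 2 * (α - q) / ((α - q) + 2) ≤ Real.log (1 + (α - q)) := Real.le_log_one_add_of_nonneg ht.le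
  have e3 : (α - q) * q < α * (2 * (α - q) / ((α - q) + 2)) := by
    rw [mul_div_assoc', lt_div_iff₀ (by linarith)]
    have e4 : q * ((α - q) + 2) < 2 * α := by nlinarith
    nlinarith
  have e5 : Real.log (1 + (α - q) * q) < α * Real.log (1 + (α - q)) :=
    lt_of_le_of_lt e1 (lt_of_lt_of_le e3 (mul_le_mul_of_nonneg_left e2 hα.le))
  rw [← Real.log_rpow (by linarith)] at e5
  exact (Real.log_lt_log_iff (by positivity) (Real.rpow_pos_of_pos (by linarith) _)).1 e5

variable {Ω : Type*} [MeasurableSpace Ω] {μ : Measure Ω} [IsProbabilityMeasure μ]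

open Classical in
lemma chern_K (G : ℕ → Set Ω) (hG : ∀ k, MeasurableSet (G k)) {q : ℝ} (hq0 : 0 ≤ q)
    (h : ∀ S : Finset ℕ, μ (⋂ k ∈ S, G k) ≤ ENNReal.ofReal q ^ S.card) {t α : ℝ} (ht : 0 ≤ t)
    (K : ℕ) :
    μ {ω | α * K < (((range K).filter (fun k => ω ∈ G k)).card : ℝ)} ≤
      ENNReal.ofReal (((1 + t * q) / (1 + t) ^ α) ^ K) := by
  set F : Ω → ℝ≥0∞ := fun ω => ∏ k ∈ range K, (1 + ENNReal.ofReal t * (G k).indicator 1 ω) with hF
  have hind : ∀ k, Measurable (fun ω => ENNReal.ofReal t * (G k).indicator (1 : Ω → ℝ≥0∞) ω) :=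
    fun k => (measurable_one.indicator (hG k)).const_mul _
  have hprod : ∀ (S : Finset ℕ) (ω : Ω), ∏ k ∈ S, (ENNReal.ofReal t * (G k).indicator (1 : Ω → ℝ≥0∞) ω) =
      ENNReal.ofReal t ^ S.card * (⋂ k ∈ S, G k).indicator 1 ω := by
    intro S ω
    rw [Finset.prod_mul_distrib, Finset.prod_const]
    congr 1
    by_cases hω : ω ∈ ⋂ k ∈ S, G k
    · rw [Set.indicator_of_mem hω]
      apply Finset.prod_eq_one
      intro k hk
      rw [Set.indicator_of_mem (Set.mem_iInter₂.1 hω k hk)]
      rfl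
    · rw [Set.indicator_of_notMem hω]
      rw [Set.mem_iInter₂] at hω
      push Not at hω
      obtain ⟨k, hk, hk2⟩ := hω
      exact Finset.prod_eq_zero hk (Set.indicator_of_notMem hk2 _)
  have hint : ∫⁻ ω, F ω ∂μ ≤ ENNReal.ofReal (1 + t * q) ^ K := by
    have e1 : ∀ ω, F ω = ∑ S ∈ (range K).powerset, ENNReal.ofReal t ^ S.card * (⋂ k ∈ S, G k).indicator 1 ω := by
      intro ω
      rw [hF]
      simp only
      rw [Finset.prod_one_add]
      exact Finset.sum_congr rfl fun S _ => hprod S ω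
    have hmeasI : ∀ S : Finset ℕ, MeasurableSet (⋂ k ∈ S, G k) := fun S =>
      Finset.measurableSet_biInter _ fun k _ => hG k
    calc ∫⁻ ω, F ω ∂μ = ∑ S ∈ (range K).powerset, ∫⁻ ω, ENNReal.ofReal t ^ S.card *
          (⋂ k ∈ S, G k).indicator 1 ω ∂μ := by
          rw [← lintegral_finset_sum]
          · exact lintegral_congr e1
          · intro S _
            exact (measurable_one.indicator (hmeasI S)).const_mul _
      _ = ∑ S ∈ (range K).powerset, ENNReal.ofReal t ^ S.card * μ (⋂ k ∈ S, G k) := by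
          apply Finset.sum_congr rfl
          intro S _
          rw [lintegral_const_mul _ (measurable_one.indicator (hmeasI S)),
            lintegral_indicator_one (hmeasI S)]
      _ ≤ ∑ S ∈ (range K).powerset, ∏ k ∈ S, (ENNReal.ofReal t * ENNReal.ofReal q) := by
          apply Finset.sum_le_sum
          intro S _
          rw [Finset.prod_const, mul_pow]
          exact mul_le_mul_right (h S) _
      _ = ENNReal.ofReal (1 + t * q) ^ K := by
          rw [← Finset.prod_one_add, Finset.prod_const, card_range, ← ENNReal.ofReal_mul ht,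
            ENNReal.ofReal_add zero_le_one (by positivity), ENNReal.ofReal_one]
  have hpos : (0 : ℝ) < (1 + t) ^ α := Real.rpow_pos_of_pos (by linarith) _
  have hsub : {ω | α * K < (((range K).filter (fun k => ω ∈ G k)).card : ℝ)} ⊆
      {ω | ENNReal.ofReal (((1 + t) ^ α) ^ K) ≤ F ω} := by
    intro ω hω
    have hω' : α * K < (((range K).filter (fun k => ω ∈ G k)).card : ℝ) := hω
    have e1 : F ω = ENNReal.ofReal ((1 + t) ^ ((range K).filter (fun k => ω ∈ G k)).card) := by
      rw [ENNReal.ofReal_pow (by linarith), hF]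
      simp only
      rw [← Finset.prod_const, Finset.prod_filter]
      apply Finset.prod_congr rfl
      intro k _
      by_cases hk : ω ∈ G k
      · rw [Set.indicator_of_mem hk, if_pos hk, ENNReal.ofReal_add zero_le_one ht, ENNReal.ofReal_one]
        simp
      · rw [Set.indicator_of_notMem hk, if_neg hk]
        simp
    change ENNReal.ofReal (((1 + t) ^ α) ^ K) ≤ F ω
    rw [e1]
    apply ENNReal.ofReal_le_ofReal
    rw [← Real.rpow_natCast, ← Real.rpow_natCast, ← Real.rpow_mul (by linarith)]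
    exact Real.rpow_le_rpow_of_exponent_le (by linarith) hω'.le
  have hFm : Measurable F := by
    rw [hF]
    exact Finset.measurable_prod _ fun k _ => measurable_const.add (hind k)
  calc μ {ω | α * K < (((range K).filter (fun k => ω ∈ G k)).card : ℝ)}
      ≤ μ {ω | ENNReal.ofReal (((1 + t) ^ α) ^ K) ≤ F ω} := measure_mono hsub
    _ ≤ (∫⁻ ω, F ω ∂μ) / ENNReal.ofReal (((1 + t) ^ α) ^ K) := by
        apply meas_ge_le_lintegral_div hFm.aemeasurable
        · rw [Ne, ENNReal.ofReal_eq_zero, not_le]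
          positivity
        · exact ENNReal.ofReal_ne_top
    _ ≤ ENNReal.ofReal (1 + t * q) ^ K / ENNReal.ofReal (((1 + t) ^ α) ^ K) :=
        ENNReal.div_le_div_right hint _
    _ = ENNReal.ofReal (((1 + t * q) / (1 + t) ^ α) ^ K) := by
        rw [← ENNReal.ofReal_pow (by positivity), ← ENNReal.ofReal_div_of_pos (by positivity), div_pow]

open Classical in
/-- events which are jointly as rare as independent events of probability `q` have upper density
at most `q` -/
theorem chern (G : ℕ → Set Ω) (hG : ∀ k, MeasurableSet (G k)) {q : ℝ} (hq0 : 0 ≤ q) (hq1 : q ≤ 1)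
    (h : ∀ S : Finset ℕ, μ (⋂ k ∈ S, G k) ≤ ENNReal.ofReal q ^ S.card) {α : ℝ} (hα : q < α) :
    ∀ᵐ ω ∂μ, ∀ᶠ K : ℕ in atTop, (((range K).filter (fun k => ω ∈ G k)).card : ℝ) ≤ α * K := by
  have ht : 0 ≤ α - q := by linarith
  have hr := rate_lt hq0 hq1 hα
  have hpos : (0 : ℝ) < (1 + (α - q)) ^ α := Real.rpow_pos_of_pos (by linarith) _
  set r : ℝ := (1 + (α - q) * q) / (1 + (α - q)) ^ α with hrdef
  have hr1 : r < 1 := by
    rw [hrdef, div_lt_one hpos]
    exact hr
  have hr0 : 0 ≤ r := by
    rw [hrdef]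
    positivity
  have hsum : ∑' K : ℕ, μ {ω | α * K < (((range K).filter (fun k => ω ∈ G k)).card : ℝ)} ≠ ∞ := by
    apply ne_top_of_le_ne_top _ (ENNReal.tsum_le_tsum fun K => chern_K G hG hq0 h ht (α := α) K)
    rw [← ENNReal.ofReal_tsum_of_nonneg (fun K => by positivity) (summable_geometric_of_lt_one hr0 hr1)]
    exact ENNReal.ofReal_ne_top
  filter_upwards [ae_eventually_notMem hsum] with ω hω
  filter_upwards [hω] with K hK
  exact not_lt.1 hK

end Pool.Agent.L5helper2.GR
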