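import Mathlib
import Pool.Agent.Cov.PrimesAP

set_option autoImplicit false

namespace Pool.Agent.L5helper2.GR

open Finset Filter
open scoped Topology

/-- the Chebyshev function of the primes `= 1 mod p` -/
noncomputable def th (p n : ℕ) : ℝ := ∑ l ∈ (Icc 1 n).filter (fun l => l.Prime ∧ l % p = 1), Real.log l

lemma th_succ (p n : ℕ) : th p (n + 1) = th p n +
    (if (n + 1).Prime ∧ (n + 1) % p = 1 then Real.log ((n + 1 : ℕ) : ℝ) else 0) := by
  unfold th
  rw [Finset.sum_filter, Finset.sum_filter, Finset.sum_Icc_succ_top (by omega)]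

lemma th_le (p n : ℕ) : th p n ≤ Real.log 4 * n := by
  have h1 : th p n ≤ Chebyshev.theta n := by
    unfold th
    rw [Chebyshev.theta_eq_sum_Icc, Nat.floor_natCast]
    apply Finset.sum_le_sum_of_subset_of_nonneg
    · intro l hl
      rw [mem_filter, mem_Icc] at hl
      rw [mem_filter, mem_Icc]
      exact ⟨⟨by omega, hl.1.2⟩, hl.2.1⟩
    · intro l _ _
      exact Real.log_natCast_nonneg l
  exact h1.trans (Chebyshev.theta_le_log4_mul_x (Nat.cast_nonneg n))

lemma AA_le (p : ℕ) (hp : p.Prime) (n : ℕ) : Pool.Agent.Cov.AA p n ≤ th p n +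
    (Chebyshev.psi n - Chebyshev.theta n) := by
  have e1 : Chebyshev.psi (n : ℝ) - Chebyshev.theta n =
      ∑ k ∈ Icc 1 n, (ArithmeticFunction.vonMangoldt k - if k.Prime then Real.log k else 0) := by
    rw [Finset.sum_sub_distrib, ← Finset.sum_filter]
    congr 1
    · unfold Chebyshev.psi
      rw [Nat.floor_natCast]
      rfl
    · rw [Chebyshev.theta_eq_sum_Icc, Nat.floor_natCast]
      apply Finset.sum_congr _ (fun _ _ => rfl)
      ext l
      rw [mem_filter, mem_filter, mem_Icc, mem_Icc]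
      constructor
      · rintro ⟨h1, h2⟩
        exact ⟨⟨h2.one_lt.le, h1.2⟩, h2⟩
      · rintro ⟨h1, h2⟩
        exact ⟨⟨by omega, h1.2⟩, h2⟩
  rw [e1]
  unfold th Pool.Agent.Cov.AA
  rw [Finset.sum_filter, ← Finset.sum_add_distrib]
  apply Finset.sum_le_sum
  intro k _
  by_cases hk : k.Prime
  · by_cases hk1 : k % p = 1
    · rw [if_pos ⟨hk, hk1⟩, if_pos hk, Pool.Agent.Cov.R_prime hp hk hk1,
        ArithmeticFunction.vonMangoldt_apply_prime hk]
      linarith
    · rw [if_neg (fun h => hk1 h.2), if_pos hk, Pool.Agent.Cov.R_ne hp hk1,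
        ArithmeticFunction.vonMangoldt_apply_prime hk]
      linarith
  · rw [if_neg (fun h => hk h.1), if_neg hk]
    have := ArithmeticFunction.vonMangoldt.residueClass_le (1 : ZMod p) k
    linarith

lemma th_lower (p : ℕ) (hp : p.Prime) {ε : ℝ} (hε : 0 < ε) : ∃ n0 : ℕ, ∀ n : ℕ, n0 ≤ n →
    (((p : ℝ) - 1)⁻¹ - ε) * n ≤ th p n := by
  have h1 := Pool.Agent.Cov.AA_tendsto hp
  have h2 := (Pool.Agent.Cov.psi_theta_tendsto).comp (tendsto_natCast_atTop_atTop (R := ℝ))
  have h3 := h1.sub h2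
  rw [sub_zero] at h3
  have h4 := h3.eventually_const_lt (show ((p : ℝ) - 1)⁻¹ - ε < ((p : ℝ) - 1)⁻¹ by linarith)
  obtain ⟨n0, hn0⟩ := eventually_atTop.1 h4
  refine ⟨max n0 1, fun n hn => ?_⟩
  have h5 := hn0 n ((le_max_left _ _).trans hn)
  have hn1 : (0 : ℝ) < n := by exact_mod_cast (lt_of_lt_of_le zero_lt_one ((le_max_right _ _).trans hn))
  simp only [Function.comp] at h5
  rw [← sub_div, lt_div_iff₀ hn1] at h5
  have h6 := AA_le p hp n
  linarith

/-- the weight -/
noncomputable def fw (n : ℕ) : ℝ := 1 / (n * Real.log n)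

lemma fw_nonneg (n : ℕ) : 0 ≤ fw n := by
  unfold fw
  have := Real.log_natCast_nonneg n
  positivity

lemma fw_anti {n : ℕ} (hn : 2 ≤ n) : fw (n + 1) ≤ fw n := by
  unfold fw
  have h1 : (0 : ℝ) < n := by positivity
  have h2 : 0 < Real.log n := Real.log_pos (by exact_mod_cast (by omega : 1 < n))
  apply one_div_le_one_div_of_le (by positivity)
  apply mul_le_mul
  · push_cast; linarith
  · apply Real.log_le_log h1
    push_cast; linarith
  · exact h2.le
  · positivity

/-- discrete partial summation -/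
lemma abel (p z : ℕ) (hz : 2 ≤ z) (c : ℝ) (hc : ∀ n, z ≤ n → c * n ≤ th p n) (y : ℕ) (hy : z ≤ y) :
    c * ∑ n ∈ Ioc z y, fw n + (th p y - c * y) * fw y - (th p z - c * z) * fw z ≤
      ∑ l ∈ (Ioc z y).filter (fun l => l.Prime ∧ l % p = 1), (1 : ℝ) / l := by
  induction y, hy using Nat.le_induction with
  | base => simp
  | succ y hy ih =>
    rw [Finset.sum_filter] at ih ⊢
    rw [Finset.sum_Ioc_succ_top (by omega), Finset.sum_Ioc_succ_top (by omega), th_succ]
    have hy2 : 2 ≤ y := hz.trans hy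
    have hlog : 0 < Real.log ((y + 1 : ℕ) : ℝ) := Real.log_pos (by exact_mod_cast (by omega : 1 < y + 1))
    have hy0 : (0 : ℝ) < ((y + 1 : ℕ) : ℝ) := by positivity
    have h1 : (0 : ℝ) ≤ (th p y - c * y) * (fw y - fw (y + 1)) :=
      mul_nonneg (by linarith [hc y hy]) (by linarith [fw_anti hy2])
    by_cases h : (y + 1).Prime ∧ (y + 1) % p = 1
    · rw [if_pos h, if_pos h]
      have h2 : Real.log ((y + 1 : ℕ) : ℝ) * fw (y + 1) = 1 / ((y + 1 : ℕ) : ℝ) := by
        unfold fw
        field_simp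
      have h3 : ((y + 1 : ℕ) : ℝ) = y + 1 := by push_cast; ring
      have h4 : c * (∑ n ∈ Ioc z y, fw n + fw (y + 1)) +
          (th p y + Real.log ((y + 1 : ℕ) : ℝ) - c * ((y + 1 : ℕ) : ℝ)) * fw (y + 1) -
          (th p z - c * z) * fw z = (c * ∑ n ∈ Ioc z y, fw n + (th p y - c * y) * fw y -
          (th p z - c * z) * fw z) - (th p y - c * y) * (fw y - fw (y + 1)) +
          Real.log ((y + 1 : ℕ) : ℝ) * fw (y + 1) := by
        rw [h3]; ring
      rw [h4, h2]
      linarith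
    · rw [if_neg h, if_neg h]
      have h3 : ((y + 1 : ℕ) : ℝ) = y + 1 := by push_cast; ring
      have h4 : c * (∑ n ∈ Ioc z y, fw n + fw (y + 1)) +
          (th p y + 0 - c * ((y + 1 : ℕ) : ℝ)) * fw (y + 1) -
          (th p z - c * z) * fw z = (c * ∑ n ∈ Ioc z y, fw n + (th p y - c * y) * fw y -
          (th p z - c * z) * fw z) - (th p y - c * y) * (fw y - fw (y + 1)) := by
        rw [h3]; ring
      rw [h4]
      linarith

lemma fw_sum {z y : ℕ} (hz : 2 ≤ z) (hy : z ≤ y) :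
    Real.log (Real.log ((y + 1 : ℕ) : ℝ)) - Real.log (Real.log ((z + 1 : ℕ) : ℝ)) ≤ ∑ n ∈ Ioc z y, fw n := by
  induction y, hy using Nat.le_induction with
  | base => simp
  | succ y hy ih =>
    rw [Finset.sum_Ioc_succ_top (by omega)]
    have hy1 : (0 : ℝ) < ((y + 1 : ℕ) : ℝ) := by positivity
    have hlog : 0 < Real.log ((y + 1 : ℕ) : ℝ) := Real.log_pos (by exact_mod_cast (by omega : 1 < y + 1))
    have h1 : Real.log ((y + 1 + 1 : ℕ) : ℝ) ≤ Real.log ((y + 1 : ℕ) : ℝ) + 1 / ((y + 1 : ℕ) : ℝ) := by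
      have h2 : ((y + 1 + 1 : ℕ) : ℝ) = ((y + 1 : ℕ) : ℝ) * (1 + 1 / ((y + 1 : ℕ) : ℝ)) := by
        field_simp
        push_cast
        ring
      rw [h2, Real.log_mul hy1.ne' (by positivity)]
      have := Real.log_le_sub_one_of_pos (x := 1 + 1 / ((y + 1 : ℕ) : ℝ)) (by positivity)
      linarith
    have h3 : Real.log (Real.log ((y + 1 + 1 : ℕ) : ℝ)) ≤ Real.log (Real.log ((y + 1 : ℕ) : ℝ)) + fw (y + 1) := by
      have h4 : Real.log ((y + 1 : ℕ) : ℝ) + 1 / ((y + 1 : ℕ) : ℝ) =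
          Real.log ((y + 1 : ℕ) : ℝ) * (1 + fw (y + 1)) := by
        unfold fw
        field_simp
      have h5 : 0 < Real.log ((y + 1 + 1 : ℕ) : ℝ) := Real.log_pos (by exact_mod_cast (by omega : 1 < y + 1 + 1))
      have hf := fw_nonneg (y + 1)
      calc Real.log (Real.log ((y + 1 + 1 : ℕ) : ℝ)) ≤
            Real.log (Real.log ((y + 1 : ℕ) : ℝ) * (1 + fw (y + 1))) :=
            Real.log_le_log h5 (h1.trans h4.le)
        _ = Real.log (Real.log ((y + 1 : ℕ) : ℝ)) + Real.log (1 + fw (y + 1)) :=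
            Real.log_mul hlog.ne' (by positivity)
        _ ≤ _ := by
            have := Real.log_le_sub_one_of_pos (x := 1 + fw (y + 1)) (by positivity)
            linarith
    linarith

/-- the sum of `(p-1)/l` over the primes `l = 1 mod p` in `(z, z^k]` -/
lemma sum_lower (p : ℕ) (hp : p.Prime) (k : ℕ) (hk : 1 ≤ k) {ε : ℝ} (hε : 0 < ε) :
    ∀ᶠ z : ℕ in atTop, Real.log k - ε ≤
      ∑ l ∈ (Ioc z (z ^ k)).filter (fun l => l.Prime ∧ l % p = 1), ((p : ℝ) - 1) / l := by
  have hp1 : (0 : ℝ) < (p : ℝ) - 1 := by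
    have : (1 : ℝ) < p := by exact_mod_cast hp.one_lt
    linarith
  have hk0 : (0 : ℝ) ≤ Real.log k := Real.log_natCast_nonneg k
  set η : ℝ := min (ε / (4 * (Real.log k + 1) * ((p : ℝ) - 1))) (((p : ℝ) - 1)⁻¹) with hη
  have hη0 : 0 < η := by
    rw [hη]
    apply lt_min
    · positivity
    · positivity
  obtain ⟨n0, hn0⟩ := th_lower p hp hη0
  have hlog : Tendsto (fun z : ℕ => Real.log (z : ℝ)) atTop atTop :=
    Real.tendsto_log_atTop.comp tendsto_natCast_atTop_atTop
  -- the error terms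
  have hratio : Tendsto (fun z : ℕ => Real.log (Real.log (z : ℝ)) - Real.log (Real.log ((z + 1 : ℕ) : ℝ))) atTop (𝓝 0) := by
    have h1 : Tendsto (fun z : ℕ => Real.log (z : ℝ) / Real.log ((z + 1 : ℕ) : ℝ)) atTop (𝓝 1) := by
      have h2 : Tendsto (fun z : ℕ => Real.log ((z + 1 : ℕ) : ℝ)) atTop atTop :=
        hlog.comp (tendsto_add_atTop_nat 1)
      have h3 : Tendsto (fun z : ℕ => (1 : ℝ) - 1 / Real.log ((z + 1 : ℕ) : ℝ)) atTop (𝓝 (1 - 0)) :=
        tendsto_const_nhds.sub (h2.const_div_atTop 1)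
      rw [sub_zero] at h3
      refine tendsto_of_tendsto_of_tendsto_of_le_of_le' h3 tendsto_const_nhds ?_ ?_
      · filter_upwards [eventually_ge_atTop 2] with z hz
        have hz0 : (0 : ℝ) < z := by positivity
        have hl1 : 0 < Real.log ((z + 1 : ℕ) : ℝ) := Real.log_pos (by exact_mod_cast (by omega : 1 < z + 1))
        rw [one_sub_div hl1.ne']
        apply div_le_div_of_nonneg_right _ hl1.le
        have h4 : ((z + 1 : ℕ) : ℝ) = (z : ℝ) * (1 + 1 / (z : ℝ)) := by
          field_simp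
          push_cast
          ring
        rw [h4, Real.log_mul hz0.ne' (by positivity)]
        have := Real.log_le_sub_one_of_pos (x := 1 + 1 / (z : ℝ)) (by positivity)
        have h5 : 1 / (z : ℝ) ≤ 1 := by
          rw [div_le_one hz0]
          exact_mod_cast (by omega : 1 ≤ z)
        linarith
      · filter_upwards [eventually_ge_atTop 2] with z hz
        have hz0 : (0 : ℝ) < z := by positivity
        have hl1 : 0 < Real.log ((z + 1 : ℕ) : ℝ) := Real.log_pos (by exact_mod_cast (by omega : 1 < z + 1))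
        rw [div_le_one hl1]
        apply Real.log_le_log hz0
        push_cast
        linarith
    have h2 := (Real.continuousAt_log (x := 1) one_ne_zero).tendsto.comp h1
    rw [Real.log_one] at h2
    refine h2.congr' ?_
    filter_upwards [eventually_ge_atTop 2] with z hz
    have hl0 : 0 < Real.log (z : ℝ) := Real.log_pos (by exact_mod_cast (by omega : 1 < z))
    have hl1 : 0 < Real.log ((z + 1 : ℕ) : ℝ) := Real.log_pos (by exact_mod_cast (by omega : 1 < z + 1))
    simp only [Function.comp]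
    rw [Real.log_div hl0.ne' hl1.ne']
  have hδ : 0 < min (ε / 4) 1 := by positivity
  have E1 := hratio.eventually_const_lt (show -(min (ε / 4) 1) < 0 by linarith)
  have E2 := hlog.eventually_ge_atTop (4 * (((p : ℝ) - 1) * Real.log 4) / ε)
  filter_upwards [E1, E2, eventually_ge_atTop (max n0 2)] with z h1 h2 h3
  have hz2 : 2 ≤ z := (le_max_right _ _).trans h3
  have hzn : n0 ≤ z := (le_max_left _ _).trans h3
  have hz0 : (0 : ℝ) < z := by positivity
  have hl0 : 0 < Real.log (z : ℝ) := Real.log_pos (by exact_mod_cast (by omega : 1 < z))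
  have hzk : z ≤ z ^ k := Nat.le_self_pow (by omega) z
  set c : ℝ := ((p : ℝ) - 1)⁻¹ - η with hc
  have hc0 : 0 ≤ c := by
    have := min_le_right (ε / (4 * (Real.log k + 1) * ((p : ℝ) - 1))) (((p : ℝ) - 1)⁻¹)
    rw [← hη] at this
    linarith
  have h4 := abel p z hz2 c (fun n hn => hn0 n (hzn.trans hn)) (z ^ k) hzk
  have h5 := fw_sum hz2 hzk
  have h6 : 0 ≤ (th p (z ^ k) - c * ((z ^ k : ℕ) : ℝ)) * fw (z ^ k) :=
    mul_nonneg (by linarith [hn0 (z ^ k) (hzn.trans hzk)]) (fw_nonneg _)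
  have h7 : (th p z - c * z) * fw z ≤ Real.log 4 / Real.log z := by
    have h8 : (th p z - c * z) * fw z ≤ (Real.log 4 * z) * fw z := by
      apply mul_le_mul_of_nonneg_right _ (fw_nonneg z)
      have := th_le p z
      have : 0 ≤ c * z := by positivity
      linarith
    refine h8.trans (le_of_eq ?_)
    unfold fw
    field_simp
  have h9 : Real.log k + Real.log (Real.log z) ≤ Real.log (Real.log ((z ^ k + 1 : ℕ) : ℝ)) := by
    have hkr : (0 : ℝ) < k := by exact_mod_cast (by omega : 0 < k)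
    rw [← Real.log_mul hkr.ne' hl0.ne']
    apply Real.log_le_log (by positivity)
    rw [← Real.log_pow]
    apply Real.log_le_log (by positivity)
    push_cast
    linarith
  have h10 : Real.log k - min (ε / 4) 1 ≤ ∑ n ∈ Ioc z (z ^ k), fw n := by linarith
  have h11 : (Real.log k - min (ε / 4) 1) * c - Real.log 4 / Real.log z ≤
      ∑ l ∈ (Ioc z (z ^ k)).filter (fun l => l.Prime ∧ l % p = 1), (1 : ℝ) / l := by
    have h12 := mul_le_mul_of_nonneg_left h10 hc0
    push_cast at h4 h6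
    linarith
  have h13 : ∑ l ∈ (Ioc z (z ^ k)).filter (fun l => l.Prime ∧ l % p = 1), ((p : ℝ) - 1) / l =
      ((p : ℝ) - 1) * ∑ l ∈ (Ioc z (z ^ k)).filter (fun l => l.Prime ∧ l % p = 1), (1 : ℝ) / l := by
    rw [Finset.mul_sum]
    apply Finset.sum_congr rfl
    intro l _
    ring
  rw [h13]
  refine le_trans ?_ (mul_le_mul_of_nonneg_left h11 hp1.le)
  have h14 : ((p : ℝ) - 1) * (Real.log 4 / Real.log z) ≤ ε / 4 := by
    rw [mul_div_assoc', div_le_iff₀ hl0]
    rw [div_le_iff₀ hε] at h2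
    linarith
  have h15 : ((p : ℝ) - 1) * c = 1 - ((p : ℝ) - 1) * η := by
    rw [hc]
    field_simp
  have h16 : ((p : ℝ) - 1) * η * (Real.log k + 1) ≤ ε / 4 := by
    have h17 := min_le_left (ε / (4 * (Real.log k + 1) * ((p : ℝ) - 1))) (((p : ℝ) - 1)⁻¹)
    rw [← hη, le_div_iff₀ (by positivity)] at h17
    nlinarith
  have hm1 := min_le_left (ε / 4) (1 : ℝ)
  have hm2 := min_le_right (ε / 4) (1 : ℝ)
  have hm3 : 0 ≤ ((p : ℝ) - 1) * η := by positivity
  have e : ((p : ℝ) - 1) * ((Real.log k - min (ε / 4) 1) * c - Real.log 4 / Real.log z) =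
      (Real.log k - min (ε / 4) 1) * (1 - ((p : ℝ) - 1) * η) - ((p : ℝ) - 1) * (Real.log 4 / Real.log z) := by
    rw [← h15]; ring
  rw [e]
  nlinarith [mul_nonneg hm3 hδ.le]

end Pool.Agent.L5helper2.GR
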