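import Mathlib
import Pool.Agent.L5helper2.GR.Bad
import Pool.Agent.H305R2.MertensM

set_option autoImplicit false

namespace Pool.Agent.L5helper2.GR

open Finset Filter
open scoped Topology ENNReal

/-- the primes `> z` with a positive answer -/
noncomputable def PT (T : Finset (ℕ × ℕ)) (z : ℕ) : Finset ℕ := (T.image Prod.snd).filter (fun l => z < l)

lemma card_big (p z x : ℕ) (hp : 1 ≤ p) (hx : x ≤ z ^ p) :
    (x.primeFactors.filter (fun l => z < l)).card ≤ p := by
  by_contra hcon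
  push Not at hcon
  rcases Nat.eq_zero_or_pos x with h0 | h0
  · subst h0
    simp at hcon
  · have h1 : (z + 1) ^ (x.primeFactors.filter (fun l => z < l)).card ≤
        ∏ l ∈ x.primeFactors.filter (fun l => z < l), l := by
      rw [← Finset.prod_const]
      apply Finset.prod_le_prod'
      intro l hl
      exact (mem_filter.1 hl).2
    have h2 : ∏ l ∈ x.primeFactors.filter (fun l => z < l), l ≤ x := by
      apply Nat.le_of_dvd h0
      refine dvd_trans ?_ (Nat.prod_primeFactors_dvd x)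
      exact Finset.prod_dvd_prod_of_subset _ _ _ (filter_subset _ _)
    have h3 : (z + 1) ^ (p + 1) ≤ (z + 1) ^ (x.primeFactors.filter (fun l => z < l)).card :=
      Nat.pow_le_pow_right (by omega) hcon
    have h4 : z ^ p < (z + 1) ^ p := Nat.pow_lt_pow_left (by omega) (by omega)
    have h5 : (z + 1) ^ p ≤ (z + 1) ^ (p + 1) := Nat.pow_le_pow_right (by omega) (by omega)
    omega

variable {p : ℕ} {D : ℕ → ℕ → Finset ℕ → ℕ} {DD : Set ℕ}

lemma card_PT (hp : 1 ≤ p) {z : ℕ} {T : Finset (ℕ × ℕ)} (hT : Cons p D DD z T) :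
    (PT T z).card ≤ z * p := by
  classical
  have h1 : PT T z ⊆ (Icc 2 z).biUnion
      (fun n => (B p D T (n - 1)).primeFactors.filter (fun l => z < l)) := by
    intro l hl
    unfold PT at hl
    rw [mem_filter, mem_image] at hl
    obtain ⟨⟨t, ht, rfl⟩, h2⟩ := hl
    obtain ⟨h3, h4, h5, _⟩ := hT t ht
    rw [mem_biUnion]
    exact ⟨t.1, mem_Icc.2 ⟨h3, h4⟩, mem_filter.2 ⟨h5, h2⟩⟩
  refine (card_le_card h1).trans (card_biUnion_le.trans ?_)
  calc ∑ n ∈ Icc 2 z, ((B p D T (n - 1)).primeFactors.filter (fun l => z < l)).card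
      ≤ ∑ n ∈ Icc 2 z, p := by
        apply Finset.sum_le_sum
        intro n hn
        rw [mem_Icc] at hn
        apply card_big _ _ _ hp
        exact (B_le hp T (n - 1) (by omega)).trans (Nat.pow_le_pow_left (by omega) p)
    _ ≤ z * p := by
        rw [Finset.sum_const, Nat.card_Icc, smul_eq_mul]
        exact Nat.mul_le_mul_right p (by omega)

open Classical in
lemma filter_L {z : ℕ} {T : Finset (ℕ × ℕ)} :
    (L p DD z).filter (fun l => ∀ n, (n, l) ∉ T) = L p DD z \ PT T z := by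
  ext l
  simp only [Finset.mem_filter, Finset.mem_sdiff]
  constructor
  · rintro ⟨h1, h2⟩
    refine ⟨h1, ?_⟩
    intro h3
    unfold PT at h3
    rw [mem_filter, mem_image] at h3
    obtain ⟨⟨t, ht, rfl⟩, _⟩ := h3
    exact h2 t.1 ht
  · rintro ⟨h1, h2⟩
    refine ⟨h1, ?_⟩
    intro n hn
    apply h2
    unfold PT
    rw [mem_filter, mem_image]
    exact ⟨⟨(n, l), hn, rfl⟩, by have := (mem_L.1 h1).2.1; omega⟩

/-- few primes above `z` have a small sum of reciprocals -/
lemma sum_small (a : ℕ) {ε : ℝ} (hε : 0 < ε) : ∀ᶠ z : ℕ in atTop, ∀ X : Finset ℕ,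
    (∀ l ∈ X, l.Prime ∧ z < l) → X.card ≤ z * a + 1 → ∑ l ∈ X, (1 : ℝ) / l ≤ ε := by
  obtain ⟨M, hM⟩ := Pool.Agent.H305R2.mertens_inv_tendsto
  set F : ℕ → ℝ := fun N => ∑ l ∈ (Icc 1 N).filter Nat.Prime, (1 : ℝ) / l with hF
  have hlog : Tendsto (fun z : ℕ => Real.log (z : ℝ)) atTop atTop :=
    Real.tendsto_log_atTop.comp tendsto_natCast_atTop_atTop
  set g : ℕ → ℕ := fun z => ⌊Real.log (z : ℝ)⌋₊ with hg
  have hgt : Tendsto g atTop atTop := tendsto_nat_floor_atTop.comp hlog
  set y : ℕ → ℕ := fun z => z * g z with hy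
  have hyt : Tendsto y atTop atTop := by
    apply tendsto_atTop_mono' _ _ (tendsto_id (α := ℕ) (x := atTop))
    filter_upwards [hgt.eventually_ge_atTop 1] with z hz
    exact Nat.le_mul_of_pos_right z hz
  -- the iterated logarithms
  have hll : Tendsto (fun z : ℕ => Real.log (Real.log (y z : ℝ)) - Real.log (Real.log (z : ℝ))) atTop (𝓝 0) := by
    have h1 : Tendsto (fun z : ℕ => Real.log (y z : ℝ) / Real.log (z : ℝ)) atTop (𝓝 1) := by
      have h2 : Tendsto (fun z : ℕ => 1 + Real.log (Real.log (z : ℝ)) / Real.log (z : ℝ)) atTop (𝓝 (1 + 0)) :=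
        tendsto_const_nhds.add ((Real.isLittleO_log_id_atTop.tendsto_div_nhds_zero).comp hlog)
      rw [add_zero] at h2
      refine tendsto_of_tendsto_of_tendsto_of_le_of_le' tendsto_const_nhds h2 ?_ ?_
      · filter_upwards [hgt.eventually_ge_atTop 1, eventually_ge_atTop 3] with z h3 h4
        have hz0 : (0 : ℝ) < z := by positivity
        have hl0 : 0 < Real.log (z : ℝ) := Real.log_pos (by exact_mod_cast (by omega : 1 < z))
        rw [le_div_iff₀ hl0, one_mul]
        apply Real.log_le_log hz0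
        exact_mod_cast Nat.le_mul_of_pos_right z h3
      · filter_upwards [hgt.eventually_ge_atTop 1, eventually_ge_atTop 3] with z h3 h4
        have hz0 : (0 : ℝ) < z := by positivity
        have hl0 : 0 < Real.log (z : ℝ) := Real.log_pos (by exact_mod_cast (by omega : 1 < z))
        have hg0 : (0 : ℝ) < g z := by exact_mod_cast h3
        rw [div_le_iff₀ hl0, add_mul, one_mul, div_mul_cancel₀ _ hl0.ne']
        have h5 : (y z : ℝ) = z * g z := by rw [hy]; push_cast; ring
        rw [h5, Real.log_mul hz0.ne' hg0.ne']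
        have h6 : Real.log (g z : ℝ) ≤ Real.log (Real.log (z : ℝ)) :=
          Real.log_le_log hg0 (Nat.floor_le hl0.le)
        linarith
    have h2 := (Real.continuousAt_log (x := 1) one_ne_zero).tendsto.comp h1
    rw [Real.log_one] at h2
    refine h2.congr' ?_
    filter_upwards [hgt.eventually_ge_atTop 1, eventually_ge_atTop 3] with z h3 h4
    have hl0 : 0 < Real.log (z : ℝ) := Real.log_pos (by exact_mod_cast (by omega : 1 < z))
    have hzy : z ≤ y z := Nat.le_mul_of_pos_right z h3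
    have hl1 : 0 < Real.log (y z : ℝ) := Real.log_pos (by exact_mod_cast (by omega : 1 < y z))
    simp only [Function.comp]
    rw [Real.log_div hl1.ne' hl0.ne']
  have hFd : Tendsto (fun z : ℕ => F (y z) - F z) atTop (𝓝 0) := by
    have h1 := ((hM.comp hyt).sub hM).add hll
    rw [sub_self, add_zero] at h1
    refine h1.congr fun z => ?_
    simp only [Function.comp]
    ring
  have hcar : Tendsto (fun z : ℕ => ((a : ℝ) + 1) / (g z : ℝ)) atTop (𝓝 0) :=
    (tendsto_natCast_atTop_atTop.comp hgt).const_div_atTop _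
  filter_upwards [hFd.eventually_lt_const (show (0 : ℝ) < ε / 2 by linarith),
    hcar.eventually_lt_const (show (0 : ℝ) < ε / 2 by linarith), hgt.eventually_ge_atTop 1,
    eventually_ge_atTop 3] with z h1 h2 h3 h4
  intro X hX hcard
  have hz0 : (0 : ℝ) < z := by positivity
  have hg0 : (0 : ℝ) < g z := by exact_mod_cast h3
  have hzy : z ≤ y z := Nat.le_mul_of_pos_right z h3
  have hy0 : (0 : ℝ) < y z := by exact_mod_cast (by omega : 0 < y z)
  rw [← Finset.sum_filter_add_sum_filter_not X (fun l => l ≤ y z)]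
  have h5 : ∑ l ∈ X.filter (fun l => l ≤ y z), (1 : ℝ) / l ≤ F (y z) - F z := by
    have h6 : F (y z) - F z = ∑ l ∈ (Ioc z (y z)).filter Nat.Prime, (1 : ℝ) / l := by
      rw [hF]
      simp only
      rw [Finset.sum_filter, Finset.sum_filter, Finset.sum_filter]
      have h7 : Icc 1 (y z) = Ioc 0 (y z) := rfl
      have h8 : Icc 1 z = Ioc 0 z := rfl
      rw [h7, h8, ← Finset.sum_Ioc_consecutive _ (Nat.zero_le z) hzy]
      ring
    rw [h6]
    apply Finset.sum_le_sum_of_subset_of_nonneg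
    · intro l hl
      rw [mem_filter] at hl
      rw [mem_filter, mem_Ioc]
      exact ⟨⟨(hX l hl.1).2, hl.2⟩, (hX l hl.1).1⟩
    · intro l _ _
      positivity
  have h9 : ∑ l ∈ X.filter (fun l => ¬ l ≤ y z), (1 : ℝ) / l ≤ ((a : ℝ) + 1) / (g z : ℝ) := by
    calc ∑ l ∈ X.filter (fun l => ¬ l ≤ y z), (1 : ℝ) / l
        ≤ ∑ l ∈ X.filter (fun l => ¬ l ≤ y z), (1 : ℝ) / (y z) := by
          apply Finset.sum_le_sum
          intro l hl
          rw [mem_filter, not_le] at hl
          apply one_div_le_one_div_of_le hy0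
          exact_mod_cast hl.2.le
      _ ≤ (X.card : ℝ) * (1 / (y z)) := by
          rw [Finset.sum_const, nsmul_eq_mul]
          apply mul_le_mul_of_nonneg_right _ (by positivity)
          exact_mod_cast card_le_card (filter_subset _ _)
      _ ≤ ((z : ℝ) * (a + 1)) * (1 / (y z)) := by
          apply mul_le_mul_of_nonneg_right _ (by positivity)
          have : X.card ≤ z * (a + 1) := hcard.trans (by nlinarith)
          exact_mod_cast this
      _ = ((a : ℝ) + 1) / (g z : ℝ) := by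
          have h5 : (y z : ℝ) = z * g z := by rw [hy]; push_cast; ring
          rw [h5]
          field_simp
  linarith

/-- the weight `1 - (p-1)/l` -/
noncomputable def w (p l : ℕ) : ℝ := 1 - ((p - 1 : ℕ) : ℝ) / l

lemma w_nonneg {p l : ℕ} (h : p ≤ l) : 0 ≤ w p l := by
  unfold w
  rcases Nat.eq_zero_or_pos l with h0 | h0
  · subst h0; simp
  · rw [sub_nonneg, div_le_one (by exact_mod_cast h0)]
    exact_mod_cast (by omega : p - 1 ≤ l)

lemma w_le_one (p l : ℕ) : w p l ≤ 1 := by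
  unfold w
  have : (0 : ℝ) ≤ ((p - 1 : ℕ) : ℝ) / l := by positivity
  linarith

open Classical in
/-- the primes of `DD` in `(z, z^k]` -/
noncomputable def PZ (DD : Set ℕ) (k z : ℕ) : Finset ℕ := (Ioc z (z ^ k)).filter (fun l => l ∈ DD)

lemma prod_ge (s : Finset ℕ) (f : ℕ → ℝ) (h0 : ∀ i ∈ s, 0 ≤ f i) (h1 : ∀ i ∈ s, f i ≤ 1) :
    1 - ∑ i ∈ s, f i ≤ ∏ i ∈ s, (1 - f i) := by
  classical
  induction s using Finset.induction_on with
  | empty => simp
  | insert i s hi ih =>
    rw [Finset.sum_insert hi, Finset.prod_insert hi]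
    have h2 := ih (fun j hj => h0 j (mem_insert_of_mem hj)) (fun j hj => h1 j (mem_insert_of_mem hj))
    have h3 := h0 i (mem_insert_self _ _)
    have h4 := h1 i (mem_insert_self _ _)
    have h5 : 0 ≤ ∑ j ∈ s, f j := Finset.sum_nonneg fun j hj => h0 j (mem_insert_of_mem hj)
    have h6 : 0 ≤ ∏ j ∈ s, (1 - f j) := Finset.prod_nonneg fun j hj => by
      have := h1 j (mem_insert_of_mem hj); linarith
    nlinarith

/-- the hypothesis on the products gives the bound for all transcripts -/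
theorem hq_of_prod (hp : 3 ≤ p) (hDD : ∀ l ∈ DD, l.Prime ∧ l % p = 1) (k : ℕ) (hk : 2 * k ≤ p - 1)
    {q q' : ℝ} (hq0 : 0 ≤ q) (hqq : q < q') (hP : ∀ᶠ z : ℕ in atTop, ∏ l ∈ PZ DD k z, w p l ≤ q) :
    ∃ N0 : ℕ, ∀ D : ℕ → ℕ → Finset ℕ → ℕ, HQ p D DD N0 (ENNReal.ofReal q') := by
  classical
  have hq'0 : 0 < q' := by linarith
  set ε : ℝ := (q' - q) / q' with hε
  have hε0 : 0 < ε := by rw [hε]; exact div_pos (by linarith) hq'0
  have hε1 : ε ≤ 1 := by
    rw [hε, div_le_one hq'0]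
    linarith
  have hpr : (0 : ℝ) < ((p - 1 : ℕ) : ℝ) := by exact_mod_cast (by omega : 0 < p - 1)
  have hS := sum_small p (ε := ε / ((p - 1 : ℕ) : ℝ)) (by positivity)
  obtain ⟨N0, hN0⟩ := eventually_atTop.1 (hP.and (hS.and (eventually_ge_atTop (max p 1))))
  refine ⟨N0, fun D z hz T hT => ?_⟩
  obtain ⟨h1, h2, h3⟩ := hN0 z hz
  have hzp : p ≤ z := (le_max_left _ _).trans h3
  have hz1 : 1 ≤ z := (le_max_right _ _).trans h3
  rw [filter_L]
  set X : Finset ℕ := PZ DD k z ∩ (PT T z ∪ {z + 1}) with hX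
  have hXs : X ⊆ PZ DD k z := inter_subset_left
  have hPZ : ∀ l ∈ PZ DD k z, (z < l ∧ l ≤ z ^ k) ∧ l ∈ DD := by
    intro l hl
    unfold PZ at hl
    rw [mem_filter, mem_Ioc] at hl
    exact hl
  have hcard : X.card ≤ z * p + 1 := by
    refine (card_le_card inter_subset_right).trans ((card_union_le _ _).trans ?_)
    rw [card_singleton]
    have := card_PT (D := D) (DD := DD) (by omega : 1 ≤ p) hT
    omega
  have h4 := h2 X (fun l hl => ⟨(hDD l (hPZ l (hXs hl)).2).1, (hPZ l (hXs hl)).1.1⟩) hcard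
  have h5 : 1 - ε ≤ ∏ l ∈ X, w p l := by
    have h6 := prod_ge X (fun l => ((p - 1 : ℕ) : ℝ) / l) (fun l _ => by positivity) (fun l hl => by
      have h7 := (hPZ l (hXs hl)).1.1
      rw [div_le_one (by exact_mod_cast (by omega : 0 < l))]
      exact_mod_cast (by omega : p - 1 ≤ l))
    refine le_trans ?_ h6
    have h8 : ∑ l ∈ X, ((p - 1 : ℕ) : ℝ) / l = ((p - 1 : ℕ) : ℝ) * ∑ l ∈ X, (1 : ℝ) / l := by
      rw [Finset.mul_sum]
      apply Finset.sum_congr rfl
      intro l _
      ring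
    rw [h8]
    have h9 := mul_le_mul_of_nonneg_left h4 hpr.le
    rw [mul_div_cancel₀ _ hpr.ne'] at h9
    linarith
  have h10 : ∏ l ∈ PZ DD k z \ X, w p l ≤ q' := by
    have h11 : (∏ l ∈ PZ DD k z \ X, w p l) * ∏ l ∈ X, w p l = ∏ l ∈ PZ DD k z, w p l :=
      Finset.prod_sdiff hXs
    have h12 : 0 ≤ ∏ l ∈ PZ DD k z \ X, w p l := Finset.prod_nonneg fun l hl => by
      have := (hPZ l (Finset.mem_sdiff.1 hl).1).1.1
      exact w_nonneg (by omega)
    have h13 : (∏ l ∈ PZ DD k z \ X, w p l) * (1 - ε) ≤ q :=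
      (mul_le_mul_of_nonneg_left h5 h12).trans (h11.le.trans h1)
    have h14 : 1 - ε = q / q' := by
      rw [hε]
      field_simp
      ring
    rw [h14] at h13
    rcases hq0.eq_or_lt with h15 | h15
    · -- `q = 0`
      have h16 : ∏ l ∈ PZ DD k z, w p l = 0 := le_antisymm (by rw [h15]; exact h1) (Finset.prod_nonneg fun l hl => by
        have := (hPZ l hl).1.1
        exact w_nonneg (by omega))
      obtain ⟨l, hl, hl0⟩ := Finset.prod_eq_zero_iff.1 h16
      have h17 := (hPZ l hl).1.1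
      unfold w at hl0
      have h18 : ((p - 1 : ℕ) : ℝ) / l < 1 := by
        rw [div_lt_one (by exact_mod_cast (by omega : 0 < l))]
        exact_mod_cast (by omega : p - 1 < l)
      linarith
    · have h19 : (∏ l ∈ PZ DD k z \ X, w p l) * q ≤ q * q' := by
        rw [mul_div_assoc', div_le_iff₀ hq'0] at h13
        exact h13
      rw [mul_comm] at h19
      exact le_of_mul_le_mul_left h19 h15
  have hsub : PZ DD k z \ X ⊆ L p DD z \ PT T z := by
    intro l hl
    obtain ⟨hl1, hl2⟩ := Finset.mem_sdiff.1 hl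
    have hl3 := hPZ l hl1
    have hl4 : l ∉ PT T z ∪ {z + 1} := fun h => hl2 (mem_inter.2 ⟨hl1, h⟩)
    rw [mem_union, mem_singleton] at hl4
    push Not at hl4
    refine Finset.mem_sdiff.2 ⟨mem_L.2 ⟨hl3.2, by omega, ?_⟩, hl4.1⟩
    rw [Nat.le_div_iff_mul_le (by omega)]
    have h20 : l ^ 2 ≤ z ^ (p - 1) := by
      calc l ^ 2 ≤ (z ^ k) ^ 2 := Nat.pow_le_pow_left hl3.1.2 2
        _ = z ^ (k * 2) := by rw [← pow_mul]
        _ ≤ z ^ (p - 1) := Nat.pow_le_pow_right (by omega) (by omega)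
    have h21 : l ^ 2 * z ≤ z ^ p := by
      calc l ^ 2 * z ≤ z ^ (p - 1) * z := Nat.mul_le_mul_right z h20
        _ = z ^ (p - 1 + 1) := by rw [pow_succ]
        _ = z ^ p := by congr 1; omega
    have h22 : z ^ p < (z + 1) ^ p := Nat.pow_lt_pow_left (by omega) (by omega)
    omega
  have hLw : ∀ l ∈ L p DD z \ PT T z, 0 ≤ w p l ∧ w p l ≤ 1 := by
    intro l hl
    have := (mem_L.1 (Finset.mem_sdiff.1 hl).1).2.1
    exact ⟨w_nonneg (by omega), w_le_one p l⟩
  have h23 : ∏ l ∈ L p DD z \ PT T z, w p l ≤ ∏ l ∈ PZ DD k z \ X, w p l := by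
    rw [← Finset.prod_sdiff hsub]
    have h24 : ∏ l ∈ (L p DD z \ PT T z) \ (PZ DD k z \ X), w p l ≤ 1 :=
      Finset.prod_le_one (fun l hl => (hLw l (Finset.mem_sdiff.1 hl).1).1) (fun l _ => w_le_one p l)
    have h25 : 0 ≤ ∏ l ∈ PZ DD k z \ X, w p l := Finset.prod_nonneg fun l hl => (hLw l (hsub hl)).1
    nlinarith
  have h26 : ∏ l ∈ L p DD z \ PT T z, ENNReal.ofReal (1 - ((p - 1 : ℕ) : ℝ) / l) =
      ENNReal.ofReal (∏ l ∈ L p DD z \ PT T z, w p l) := by
    rw [ENNReal.ofReal_prod_of_nonneg (fun l hl => (hLw l hl).1)]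
    rfl
  rw [h26]
  exact ENNReal.ofReal_le_ofReal (h23.trans h10)

end Pool.Agent.L5helper2.GR
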