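import Mathlib
import Pool.Agent.L5helper2.GR.Prod
import Pool.Agent.L5helper2.GR.Chern
import Pool.Agent.L5helper2.GR.MAP

set_option autoImplicit false

namespace Pool.Agent.L5helper2.GR

open Finset MeasureTheory ProbabilityTheory Filter
open scoped ENNReal Topology

variable {p : ℕ} {D : ℕ → ℕ → Finset ℕ → ℕ} {DD : Set ℕ}

lemma mem_PZ {k z l : ℕ} : l ∈ PZ DD k z ↔ (z < l ∧ l ≤ z ^ k) ∧ l ∈ DD := by
  classical
  unfold PZ
  rw [mem_filter, mem_Ioc]

/-- a lower bound for the sum gives an upper bound for the product -/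
lemma prod_of_sum (hp : 3 ≤ p) (k : ℕ) {c : ℝ}
    (hc : ∀ᶠ z : ℕ in atTop, c ≤ ∑ l ∈ PZ DD k z, ((p : ℝ) - 1) / l) :
    ∀ᶠ z : ℕ in atTop, ∏ l ∈ PZ DD k z, w p l ≤ Real.exp (-c) := by
  filter_upwards [hc, eventually_ge_atTop p] with z hz hzp
  calc ∏ l ∈ PZ DD k z, w p l ≤ ∏ l ∈ PZ DD k z, Real.exp (-(((p : ℝ) - 1) / l)) := by
        apply Finset.prod_le_prod
        · intro l hl
          have := mem_PZ.1 hl
          exact w_nonneg (by omega)
        · intro l hl
          unfold w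
          have h1 := Real.add_one_le_exp (-(((p : ℝ) - 1) / l))
          rw [Nat.cast_sub (by omega : 1 ≤ p), Nat.cast_one]
          linarith
    _ = Real.exp (-∑ l ∈ PZ DD k z, ((p : ℝ) - 1) / l) := by
        rw [← Real.exp_sum, Finset.sum_neg_distrib]
    _ ≤ Real.exp (-c) := by
        apply Real.exp_le_exp.2
        linarith

/-- all the primes `1 mod p` -/
lemma all_sum (hp : p.Prime) (hp5 : 5 ≤ p) {q : ℝ} (hq : 2 / ((p : ℝ) - 1) < q) :
    ∃ k : ℕ, 2 * k ≤ p - 1 ∧
    ∀ᶠ z : ℕ in atTop, -Real.log q ≤ ∑ l ∈ PZ {l | l.Prime ∧ l % p = 1} k z, ((p : ℝ) - 1) / l := by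
  have hodd : p % 2 = 1 := by
    rcases hp.eq_two_or_odd with h | h
    · omega
    · exact h
  obtain ⟨k, hk⟩ : ∃ k, p = 2 * k + 1 := ⟨p / 2, by omega⟩
  have hk2 : 2 ≤ k := by omega
  have hkp : (0 : ℝ) < k := by exact_mod_cast (by omega : 0 < k)
  have hp1 : (p : ℝ) - 1 = 2 * k := by rw [hk]; push_cast; ring
  have hq2 : 1 / (k : ℝ) < q := by
    rw [hp1] at hq
    have : (2 : ℝ) / (2 * k) = 1 / k := by field_simp
    rwa [this] at hq
  have hq0 : 0 < q := lt_trans (by positivity) hq2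
  have hε : 0 < Real.log (q * k) := by
    apply Real.log_pos
    rw [div_lt_iff₀ hkp] at hq2
    exact hq2
  refine ⟨k, by omega, ?_⟩
  filter_upwards [sum_lower p hp k (by omega) hε] with z hz
  rw [Real.log_mul hq0.ne' hkp.ne'] at hz
  have h1 : ∑ l ∈ PZ {l | l.Prime ∧ l % p = 1} k z, ((p : ℝ) - 1) / l =
      ∑ l ∈ (Ioc z (z ^ k)).filter (fun l => l.Prime ∧ l % p = 1), ((p : ℝ) - 1) / l := by
    apply Finset.sum_congr _ fun _ _ => rfl
    ext l
    rw [mem_PZ, Finset.mem_filter, mem_Ioc]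
    rfl
  rw [h1]
  linarith

section count

variable (R : ℕ → Finset ℕ)

open Classical in
lemma zeros_le (hN : ℕ) (M : ℕ) :
    ((Icc 1 M).filter (fun n => A p D DD R n = 0 ∧ good p DD R n)).card ≤
      hN + ((range (cz (A p D DD R) hN (M + 1)).card).filter (fun k => gk p D DD hN k R)).card := by
  have h1 : (Icc 1 M).filter (fun n => A p D DD R n = 0 ∧ good p DD R n) ⊆
      Icc 1 hN ∪ (cz (A p D DD R) hN (M + 1)).filter (fun n => good p DD R n) := by
    intro n hn
    simp only [Finset.mem_filter, Finset.mem_Icc, Finset.mem_union, mem_cz] at hn ⊢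
    by_cases h : n ≤ hN
    · left
      exact ⟨hn.1.1, h⟩
    · right
      exact ⟨⟨⟨by omega, by omega⟩, hn.2.1⟩, hn.2.2⟩
  have h2 : ((cz (A p D DD R) hN (M + 1)).filter (fun n => good p DD R n)).card ≤
      ((range (cz (A p D DD R) hN (M + 1)).card).filter (fun k => gk p D DD hN k R)).card := by
    apply Finset.card_le_card_of_injOn (fun n => (cz (A p D DD R) hN n).card)
    · intro n hn
      have hn' := Finset.mem_filter.1 (Finset.mem_coe.1 hn)
      have hn1 := mem_cz.1 hn'.1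
      apply Finset.mem_coe.2
      apply Finset.mem_filter.2
      refine ⟨?_, ?_⟩
      · rw [mem_range]
        apply Finset.card_lt_card
        rw [Finset.ssubset_iff_of_subset]
        · refine ⟨n, hn'.1, ?_⟩
          rw [mem_cz]
          omega
        · intro j hj
          rw [mem_cz] at hj ⊢
          exact ⟨⟨hj.1.1, by omega⟩, hj.2⟩
      · intro n' h1 h2 h3
        have := rank_inj (f := A p D DD R) h2 h1 h3 hn1.2 hn1.1.1 rfl
        rw [this]
        exact hn'.2
    · intro n hn n' hn' h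
      have h1 := mem_cz.1 (Finset.mem_filter.1 (Finset.mem_coe.1 hn)).1
      have h2 := mem_cz.1 (Finset.mem_filter.1 (Finset.mem_coe.1 hn')).1
      exact rank_inj (f := A p D DD R) h1.2 h1.1.1 rfl h2.2 h2.1.1 h.symm
  refine (Finset.card_le_card h1).trans ((Finset.card_union_le _ _).trans ?_)
  rw [Nat.card_Icc]
  omega

lemma cz_tendsto (N : ℕ) : Tendsto (fun M : ℕ => (cz (A p D DD R) N (M + 1)).card) atTop atTop := by
  rw [tendsto_atTop]
  intro m
  obtain ⟨e, _, he⟩ := exists_e (p := p) (D := D) (DD := DD) R N m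
  filter_upwards [eventually_ge_atTop e] with M hM
  rw [← he]
  apply Finset.card_le_card
  intro n hn
  rw [mem_cz] at hn ⊢
  exact ⟨⟨hn.1.1, by omega⟩, hn.2⟩

lemma cz_le (N M : ℕ) : (cz (A p D DD R) N (M + 1)).card ≤
    ((Icc 1 M).filter (fun n => A p D DD R n = 0)).card := by
  apply Finset.card_le_card
  intro n hn
  rw [mem_cz] at hn
  rw [Finset.mem_filter, Finset.mem_Icc]
  exact ⟨⟨by omega, by omega⟩, hn.2⟩

open Classical in
lemma count_bound (N : ℕ) {α α' : ℝ} (h0 : 0 ≤ α') (hα : α' < α)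
    (h : ∀ᶠ K : ℕ in atTop, (((range K).filter (fun k => gk p D DD N k R)).card : ℝ) ≤ α' * K) :
    ∀ᶠ M : ℕ in atTop, (((Icc 1 M).filter (fun n => A p D DD R n = 0 ∧ good p DD R n)).card : ℝ) ≤
      α * ((Icc 1 M).filter (fun n => A p D DD R n = 0)).card := by
  have hT : Tendsto (fun M : ℕ => (((cz (A p D DD R) N (M + 1)).card : ℕ) : ℝ)) atTop atTop :=
    tendsto_natCast_atTop_atTop.comp (cz_tendsto R N)
  filter_upwards [(cz_tendsto (p := p) (D := D) (DD := DD) R N).eventually h,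
    hT.eventually_ge_atTop ((N : ℝ) / (α - α'))] with M h1 h2
  have h3 : (((Icc 1 M).filter (fun n => A p D DD R n = 0 ∧ good p DD R n)).card : ℝ) ≤
      N + ((range (cz (A p D DD R) N (M + 1)).card).filter (fun k => gk p D DD N k R)).card := by
    exact_mod_cast zeros_le R N M
  have h4 : (((cz (A p D DD R) N (M + 1)).card : ℕ) : ℝ) ≤
      (((Icc 1 M).filter (fun n => A p D DD R n = 0)).card : ℝ) := by
    exact_mod_cast cz_le R N M
  rw [div_le_iff₀ (by linarith)] at h2
  nlinarith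

end count

variable {Ω : Type*} [MeasurableSpace Ω] {μ : Measure Ω} [IsProbabilityMeasure μ]
  {R : ℕ → Ω → Finset ℕ}

open Classical in
theorem ae_bound (hM : Model μ p DD R) (N0 : ℕ) {q α : ℝ} (hq0 : 0 ≤ q) (hq1 : q ≤ 1)
    (hQ : HQ p D DD N0 (ENNReal.ofReal q)) (hα : q < α) :
    ∀ᵐ ω ∂μ, ∀ᶠ M : ℕ in atTop,
      (((Icc 1 M).filter (fun n => A p D DD (fun l => R l ω) n = 0 ∧ good p DD (fun l => R l ω) n)).card : ℝ) ≤
        α * ((Icc 1 M).filter (fun n => A p D DD (fun l => R l ω) n = 0)).card := by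
  have h1 := chern (μ := μ) (fun k => {ω | gk p D DD N0 k (fun l => R l ω)}) (fun k => meas_gk hM N0 k)
    hq0 hq1 (fun S => by
      refine (measure_mono ?_).trans (gk_bound hM N0 _ hQ N0 le_rfl S)
      intro ω hω k hk
      have := Set.mem_iInter₂.1 hω k hk
      exact this) (α := (q + α) / 2) (by linarith)
  filter_upwards [h1] with ω hω
  apply count_bound (fun l => R l ω) N0 (α' := (q + α) / 2) (by linarith) (by linarith)
  filter_upwards [hω] with K hK
  convert hK using 4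

end Pool.Agent.L5helper2.GR
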