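import Mathlib
import Pool.Agent.L5helper2.GR.Final

set_option autoImplicit false

namespace Pool.Agent.L5helper2.GR

open Finset Filter
open scoped Topology ENNReal

/-- the primes in a dyadic interval -/
lemma dyadic (x z : ℕ) (hz : 2 ≤ z) (hx : z ≤ x) :
    ∑ l ∈ (Ioc x (2 * x)).filter Nat.Prime, (1 : ℝ) / l ≤ 2 * Real.log 4 / Real.log z := by
  have hlz : 0 < Real.log (z : ℝ) := Real.log_pos (by exact_mod_cast (by omega : 1 < z))
  have hx0 : (0 : ℝ) < x := by exact_mod_cast (by omega : 0 < x)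
  have h1 : ∑ l ∈ (Ioc x (2 * x)).filter Nat.Prime, Real.log (l : ℝ) ≤ Real.log 4 * (2 * x) := by
    have h2 := Chebyshev.theta_le_log4_mul_x (x := ((2 * x : ℕ) : ℝ)) (Nat.cast_nonneg _)
    rw [Chebyshev.theta_eq_sum_Icc, Nat.floor_natCast] at h2
    refine le_trans ?_ (h2.trans (le_of_eq (by push_cast; ring)))
    apply Finset.sum_le_sum_of_subset_of_nonneg
    · intro l hl
      rw [mem_filter, mem_Ioc] at hl
      rw [mem_filter, mem_Icc]
      exact ⟨⟨by omega, hl.1.2⟩, hl.2⟩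
    · intro l _ _
      exact Real.log_natCast_nonneg l
  have h3 : ∑ l ∈ (Ioc x (2 * x)).filter Nat.Prime, (1 : ℝ) / l ≤
      ∑ l ∈ (Ioc x (2 * x)).filter Nat.Prime, Real.log (l : ℝ) / (x * Real.log z) := by
    apply Finset.sum_le_sum
    intro l hl
    rw [mem_filter, mem_Ioc] at hl
    have hl0 : (0 : ℝ) < l := by exact_mod_cast (by omega : 0 < l)
    rw [div_le_div_iff₀ hl0 (by positivity), one_mul]
    have h4 : Real.log (z : ℝ) ≤ Real.log l :=
      Real.log_le_log (by exact_mod_cast (by omega : 0 < z)) (by exact_mod_cast (by omega : z ≤ l))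
    have h5 : (x : ℝ) ≤ l := by exact_mod_cast (by omega : x ≤ l)
    nlinarith
  refine h3.trans ?_
  rw [← Finset.sum_div, div_le_div_iff₀ (by positivity) hlz]
  nlinarith

lemma dyadic_sum (z : ℕ) (hz : 2 ≤ z) (J : ℕ) :
    ∑ l ∈ (Ioc z (2 ^ J * z)).filter Nat.Prime, (1 : ℝ) / l ≤ J * (2 * Real.log 4 / Real.log z) := by
  induction J with
  | zero => simp
  | succ J ih =>
    have h1 : z ≤ 2 ^ J * z := Nat.le_mul_of_pos_left z (by positivity)
    have h2 : 2 ^ (J + 1) * z = 2 * (2 ^ J * z) := by ring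
    rw [h2, Finset.sum_filter, ← Finset.sum_Ioc_consecutive _ h1 (by omega : 2 ^ J * z ≤ 2 * (2 ^ J * z)),
      ← Finset.sum_filter, ← Finset.sum_filter]
    have h3 := dyadic (2 ^ J * z) z hz h1
    push_cast
    linarith

/-- few primes above `z`, with a rate -/
lemma sum_rate (a : ℕ) (z : ℕ) (hz : 3 ≤ z) (X : Finset ℕ) (hX : ∀ l ∈ X, l.Prime ∧ z < l)
    (hcard : X.card ≤ z * a + 1) :
    ∑ l ∈ X, (1 : ℝ) / l ≤ (2 * Real.log 4 + (a + 1)) / √(Real.log z) := by
  have hl0 : 0 < Real.log (z : ℝ) := Real.log_pos (by exact_mod_cast (by omega : 1 < z))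
  have hz0 : (0 : ℝ) < z := by exact_mod_cast (by omega : 0 < z)
  have hs0 : 0 < √(Real.log (z : ℝ)) := Real.sqrt_pos.2 hl0
  set J : ℕ := ⌊√(Real.log (z : ℝ))⌋₊ with hJ
  have hJ1 : (J : ℝ) ≤ √(Real.log (z : ℝ)) := Nat.floor_le hs0.le
  have hJ2 : √(Real.log (z : ℝ)) < J + 1 := Nat.lt_floor_add_one _
  have hJ3 : √(Real.log (z : ℝ)) ≤ 2 ^ J := by
    have : ((J + 1 : ℕ) : ℝ) ≤ ((2 ^ J : ℕ) : ℝ) := by
      exact_mod_cast Nat.lt_two_pow_self
    push_cast at this
    linarith
  rw [← Finset.sum_filter_add_sum_filter_not X (fun l => l ≤ 2 ^ J * z)]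
  have h5 : ∑ l ∈ X.filter (fun l => l ≤ 2 ^ J * z), (1 : ℝ) / l ≤ 2 * Real.log 4 / √(Real.log z) := by
    have h6 : ∑ l ∈ X.filter (fun l => l ≤ 2 ^ J * z), (1 : ℝ) / l ≤
        ∑ l ∈ (Ioc z (2 ^ J * z)).filter Nat.Prime, (1 : ℝ) / l := by
      apply Finset.sum_le_sum_of_subset_of_nonneg
      · intro l hl
        rw [mem_filter] at hl
        rw [mem_filter, mem_Ioc]
        exact ⟨⟨(hX l hl.1).2, hl.2⟩, (hX l hl.1).1⟩
      · intro l _ _
        positivity
    refine h6.trans ((dyadic_sum z (by omega) J).trans ?_)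
    have h7 : (0 : ℝ) ≤ 2 * Real.log 4 := by
      have := Real.log_nonneg (by norm_num : (1 : ℝ) ≤ 4)
      linarith
    calc (J : ℝ) * (2 * Real.log 4 / Real.log z) ≤ √(Real.log z) * (2 * Real.log 4 / Real.log z) := by
          apply mul_le_mul_of_nonneg_right hJ1 (by positivity)
      _ = 2 * Real.log 4 / √(Real.log z) := by
          rw [mul_div_assoc', div_eq_div_iff hl0.ne' hs0.ne']
          have := Real.mul_self_sqrt hl0.le
          calc √(Real.log z) * (2 * Real.log 4) * √(Real.log z) =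
              2 * Real.log 4 * (√(Real.log z) * √(Real.log z)) := by ring
            _ = 2 * Real.log 4 * Real.log z := by rw [this]
  have h9 : ∑ l ∈ X.filter (fun l => ¬ l ≤ 2 ^ J * z), (1 : ℝ) / l ≤ ((a : ℝ) + 1) / √(Real.log z) := by
    have hy0 : (0 : ℝ) < 2 ^ J * z := by positivity
    calc ∑ l ∈ X.filter (fun l => ¬ l ≤ 2 ^ J * z), (1 : ℝ) / l
        ≤ ∑ l ∈ X.filter (fun l => ¬ l ≤ 2 ^ J * z), (1 : ℝ) / (2 ^ J * z) := by
          apply Finset.sum_le_sum
          intro l hl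
          rw [mem_filter, not_le] at hl
          apply one_div_le_one_div_of_le hy0
          exact_mod_cast hl.2.le
      _ ≤ (X.card : ℝ) * (1 / (2 ^ J * z)) := by
          rw [Finset.sum_const, nsmul_eq_mul]
          apply mul_le_mul_of_nonneg_right _ (by positivity)
          exact_mod_cast card_le_card (filter_subset _ _)
      _ ≤ ((z : ℝ) * (a + 1)) * (1 / (2 ^ J * z)) := by
          apply mul_le_mul_of_nonneg_right _ (by positivity)
          have : X.card ≤ z * (a + 1) := hcard.trans (by nlinarith)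
          exact_mod_cast this
      _ = ((a : ℝ) + 1) / 2 ^ J := by
          field_simp
      _ ≤ ((a : ℝ) + 1) / √(Real.log z) := by
          apply div_le_div_of_nonneg_left (by positivity) hs0 hJ3
  rw [add_div]
  linarith

/-- the rate is better than `1 / log log z` -/
lemma rate_small (K : ℝ) {ε : ℝ} (hε : 0 < ε) :
    ∀ᶠ z : ℕ in atTop, K / √(Real.log (z : ℝ)) ≤ ε / Real.log (Real.log z) := by
  have hlog : Tendsto (fun z : ℕ => Real.log (z : ℝ)) atTop atTop :=
    Real.tendsto_log_atTop.comp tendsto_natCast_atTop_atTop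
  have h1 := (isLittleO_log_rpow_atTop (show (0 : ℝ) < 1 / 2 by norm_num)).tendsto_div_nhds_zero
  have h2 := (h1.comp hlog).const_mul |K|
  rw [mul_zero] at h2
  filter_upwards [h2.eventually_lt_const hε, hlog.eventually_gt_atTop 1] with z h3 h4
  have hs0 : 0 < √(Real.log (z : ℝ)) := Real.sqrt_pos.2 (by linarith)
  have hll : 0 < Real.log (Real.log (z : ℝ)) := Real.log_pos h4
  simp only [Function.comp] at h3
  rw [← Real.sqrt_eq_rpow, mul_div_assoc', div_lt_iff₀ hs0] at h3
  rw [div_le_div_iff₀ hs0 hll]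
  have h5 : K * Real.log (Real.log z) ≤ |K| * Real.log (Real.log z) :=
    mul_le_mul_of_nonneg_right (le_abs_self K) hll.le
  linarith

end Pool.Agent.L5helper2.GR
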