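import Mathlib
import Pool.Agent.L5helper2.GR.Final
import Pool.Agent.L5helper2.GR.Bad2
import Pool.Agent.L5helper2.GR.Rate

set_option autoImplicit false

namespace Pool.Agent.L5helper2.GR

open Finset MeasureTheory ProbabilityTheory Filter
open scoped ENNReal Topology

variable {p : ℕ} {D : ℕ → ℕ → Finset ℕ → ℕ} {DD : Set ℕ}

open Classical in
lemma prod_le_PZX (hp : 3 ≤ p) (k : ℕ) (hk : 2 * k ≤ p - 1)
    {z : ℕ} (hzp : p ≤ z) {T : Finset (ℕ × ℕ)} (hT : Cons p D DD z T) :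
    ∃ X : Finset ℕ, X ⊆ PZ DD k z ∧ X.card ≤ z * p + 1 ∧
    ∏ l ∈ (L p DD z).filter (fun l => ∀ n, (n, l) ∉ T), ENNReal.ofReal (1 - ((p - 1 : ℕ) : ℝ) / l) ≤
      ENNReal.ofReal (∏ l ∈ PZ DD k z \ X, w p l) := by
  have hz1 : 1 ≤ z := by omega
  rw [filter_L]
  set X : Finset ℕ := PZ DD k z ∩ (PT T z ∪ {z + 1}) with hX
  have hXs : X ⊆ PZ DD k z := inter_subset_left
  have hPZ : ∀ l ∈ PZ DD k z, (z < l ∧ l ≤ z ^ k) ∧ l ∈ DD := fun l hl => mem_PZ.1 hl
  have hcard : X.card ≤ z * p + 1 := by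
    refine (card_le_card inter_subset_right).trans ((card_union_le _ _).trans ?_)
    rw [card_singleton]
    have := card_PT (D := D) (DD := DD) (by omega : 1 ≤ p) hT
    omega
  refine ⟨X, hXs, hcard, ?_⟩
  have hsub : PZ DD k z \ X ⊆ L p DD z \ PT T z := by
    intro l hl
    obtain ⟨hl1, hl2⟩ := Finset.mem_sdiff.1 hl
    have hl3 := hPZ l hl1
    have hl4 : l ∉ PT T z ∪ {z + 1} := fun h => hl2 (mem_inter.2 ⟨hl1, h⟩)
    rw [mem_union, mem_singleton] at hl4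
    push Not at hl4
    refine Finset.mem_sdiff.2 ⟨mem_L.2 ⟨hl3.2, by omega, ?_⟩, hl4.1⟩
    rw [Nat.le_div_iff_mul_le (by omega)]
    have h20 : l ^ 2 ≤ z ^ (p - 1) := by
      calc l ^ 2 ≤ (z ^ k) ^ 2 := Nat.pow_le_pow_left hl3.1.2 2
        _ = z ^ (k * 2) := by rw [← pow_mul]
        _ ≤ z ^ (p - 1) := Nat.pow_le_pow_right (by omega) (by omega)
    have h21 : l ^ 2 * z ≤ z ^ p := by
      calc l ^ 2 * z ≤ z ^ (p - 1) * z := Nat.mul_le_mul_right z h20
        _ = z ^ (p - 1 + 1) := by rw [pow_succ]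
        _ = z ^ p := by congr 1; omega
    have h22 : z ^ p < (z + 1) ^ p := Nat.pow_lt_pow_left (by omega) (by omega)
    omega
  have hLw : ∀ l ∈ L p DD z \ PT T z, 0 ≤ w p l ∧ w p l ≤ 1 := by
    intro l hl
    have := (mem_L.1 (Finset.mem_sdiff.1 hl).1).2.1
    exact ⟨w_nonneg (by omega), w_le_one p l⟩
  have h23 : ∏ l ∈ L p DD z \ PT T z, w p l ≤ ∏ l ∈ PZ DD k z \ X, w p l := by
    rw [← Finset.prod_sdiff hsub]
    have h24 : ∏ l ∈ (L p DD z \ PT T z) \ (PZ DD k z \ X), w p l ≤ 1 :=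
      Finset.prod_le_one (fun l hl => (hLw l (Finset.mem_sdiff.1 hl).1).1) (fun l _ => w_le_one p l)
    have h25 : 0 ≤ ∏ l ∈ PZ DD k z \ X, w p l := Finset.prod_nonneg fun l hl => (hLw l (hsub hl)).1
    nlinarith
  have h26 : ∏ l ∈ L p DD z \ PT T z, ENNReal.ofReal (1 - ((p - 1 : ℕ) : ℝ) / l) =
      ENNReal.ofReal (∏ l ∈ L p DD z \ PT T z, w p l) := by
    rw [ENNReal.ofReal_prod_of_nonneg (fun l hl => (hLw l hl).1)]
    rfl
  rw [h26]
  exact ENNReal.ofReal_le_ofReal h23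

/-- the bound at the rank `m` -/
noncomputable def Qm (p : ℕ) (C : ℝ) (N m : ℕ) : ℝ :=
  Real.exp (-(C / 2 / (((m : ℝ) + 1) * Real.log (p + 1) + Real.log (Real.log (N + 2)))))

lemma loglog_le (hp : 1 ≤ p) {N z m : ℕ} (hN : 3 ≤ N) (hz : N < z)
    (h : z + 2 ≤ (N + 2) ^ ((p + 1) ^ (m + 1))) :
    0 < Real.log (Real.log (z : ℝ)) ∧ Real.log (Real.log (z : ℝ)) ≤
      ((m : ℝ) + 1) * Real.log (p + 1) + Real.log (Real.log (N + 2)) := by
  have he : Real.exp 1 < 3 := by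
    have := Real.exp_one_lt_d9
    linarith
  have hz3 : (3 : ℝ) < z := by exact_mod_cast (by omega : 3 < z)
  have hz0 : (0 : ℝ) < z := by linarith
  have hl1 : 1 < Real.log (z : ℝ) := by
    rw [Real.lt_log_iff_exp_lt hz0]
    linarith
  have hN3 : (3 : ℝ) ≤ N := by exact_mod_cast hN
  have hlN : 1 < Real.log ((N : ℝ) + 2) := by
    rw [Real.lt_log_iff_exp_lt (by linarith)]
    linarith
  refine ⟨Real.log_pos hl1, ?_⟩
  have h1 : (z : ℝ) ≤ ((N : ℝ) + 2) ^ ((p + 1) ^ (m + 1)) := by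
    have : ((z + 2 : ℕ) : ℝ) ≤ (((N + 2) ^ ((p + 1) ^ (m + 1)) : ℕ) : ℝ) := by exact_mod_cast h
    push_cast at this
    linarith
  have h2 : Real.log (z : ℝ) ≤ ((p : ℝ) + 1) ^ (m + 1) * Real.log ((N : ℝ) + 2) := by
    have h3 := Real.log_le_log hz0 h1
    rw [Real.log_pow] at h3
    push_cast at h3
    exact h3
  have hp0 : (0 : ℝ) < (p : ℝ) + 1 := by positivity
  have h4 := Real.log_le_log (by linarith) h2
  rw [Real.log_mul (by positivity) (by linarith), Real.log_pow] at h4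
  push_cast at h4
  exact h4

theorem hv_of_sum (hp : 3 ≤ p) (hDD : ∀ l ∈ DD, l.Prime ∧ l % p = 1) (k : ℕ) (hk : 2 * k ≤ p - 1)
    {C : ℝ} (hC : 0 < C)
    (hs : ∀ᶠ z : ℕ in atTop, C / Real.log (Real.log z) ≤ ∑ l ∈ PZ DD k z, ((p : ℝ) - 1) / l) :
    ∃ N0 : ℕ, ∀ (D : ℕ → ℕ → Finset ℕ → ℕ) (N : ℕ), N0 ≤ N → HV p D DD N (fun m => ENNReal.ofReal (Qm p C N m)) := by
  classical
  have hp1 : (0 : ℝ) < (p : ℝ) - 1 := by
    have : (3 : ℝ) ≤ p := by exact_mod_cast hp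
    linarith
  obtain ⟨N0, hN0⟩ := eventually_atTop.1 (hs.and (rate_small
    (((p : ℝ) - 1) * (2 * Real.log 4 + (p + 1))) (ε := C / 2) (by linarith)))
  refine ⟨max N0 (max p 3), fun D N hN m z hz hzm T hT => ?_⟩
  have hNN0 : N0 ≤ N := (le_max_left _ _).trans hN
  have hNp : p ≤ N := (le_max_left _ _).trans ((le_max_right _ _).trans hN)
  have hN3 : 3 ≤ N := (le_max_right _ _).trans ((le_max_right _ _).trans hN)
  obtain ⟨h1, h2⟩ := hN0 z (by omega)
  obtain ⟨hll0, hll⟩ := loglog_le (by omega : 1 ≤ p) hN3 hz hzm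
  obtain ⟨X, hXs, hXc, hX⟩ := prod_le_PZX hp k hk (by omega : p ≤ z) hT
  refine hX.trans (ENNReal.ofReal_le_ofReal ?_)
  have h3 := sum_rate p z (by omega) X (fun l hl => by
    have := mem_PZ.1 (hXs hl)
    exact ⟨(hDD l this.2).1, this.1.1⟩) hXc
  have h4 : ∑ l ∈ X, ((p : ℝ) - 1) / l ≤ C / 2 / Real.log (Real.log z) := by
    have h5 : ∑ l ∈ X, ((p : ℝ) - 1) / l = ((p : ℝ) - 1) * ∑ l ∈ X, (1 : ℝ) / l := by
      rw [Finset.mul_sum]
      apply Finset.sum_congr rfl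
      intro l _
      ring
    rw [h5]
    refine (mul_le_mul_of_nonneg_left h3 hp1.le).trans ?_
    rw [mul_div_assoc']
    exact h2
  have h6 : ∑ l ∈ PZ DD k z \ X, ((p : ℝ) - 1) / l + ∑ l ∈ X, ((p : ℝ) - 1) / l =
      ∑ l ∈ PZ DD k z, ((p : ℝ) - 1) / l := Finset.sum_sdiff hXs
  calc ∏ l ∈ PZ DD k z \ X, w p l ≤ ∏ l ∈ PZ DD k z \ X, Real.exp (-(((p : ℝ) - 1) / l)) := by
        apply Finset.prod_le_prod
        · intro l hl
          have := mem_PZ.1 (Finset.mem_sdiff.1 hl).1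
          exact w_nonneg (by omega)
        · intro l hl
          unfold w
          have h1 := Real.add_one_le_exp (-(((p : ℝ) - 1) / l))
          rw [Nat.cast_sub (by omega : 1 ≤ p), Nat.cast_one]
          linarith
    _ = Real.exp (-∑ l ∈ PZ DD k z \ X, ((p : ℝ) - 1) / l) := by
        rw [← Real.exp_sum, Finset.sum_neg_distrib]
    _ ≤ Real.exp (-(C / 2 / Real.log (Real.log z))) := by
        apply Real.exp_le_exp.2
        have h7 : C / Real.log (Real.log z) = C / 2 / Real.log (Real.log z) + C / 2 / Real.log (Real.log z) := by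
          ring
        linarith
    _ ≤ Qm p C N m := by
        unfold Qm
        apply Real.exp_le_exp.2
        apply neg_le_neg
        apply div_le_div_of_nonneg_left (by linarith) hll0 hll

lemma Qm_prod (hp : 1 ≤ p) {C : ℝ} (hC : 0 < C) {N : ℕ} (hN : 3 ≤ N) :
    Tendsto (fun m => ∏ i ∈ range m, ENNReal.ofReal (Qm p C N i)) atTop (𝓝 0) := by
  have h1 : ∀ m, ∏ i ∈ range m, ENNReal.ofReal (Qm p C N i) =
      ENNReal.ofReal (Real.exp (-∑ i ∈ range m, C / 2 / (((i : ℝ) + 1) * Real.log (p + 1) + Real.log (Real.log (N + 2))))) := by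
    intro m
    unfold Qm
    rw [← ENNReal.ofReal_prod_of_nonneg (fun i _ => (Real.exp_pos _).le)]
    rw [← Real.exp_sum, Finset.sum_neg_distrib]
  simp only [h1]
  rw [← ENNReal.ofReal_zero]
  apply (ENNReal.continuous_ofReal.tendsto 0).comp
  apply Real.tendsto_exp_atBot.comp
  apply tendsto_neg_atTop_atBot.comp
  -- the harmonic series
  set a : ℝ := Real.log (p + 1) with ha
  set b : ℝ := Real.log (Real.log (N + 2)) with hb
  have ha0 : 0 < a := Real.log_pos (by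
    have : (1 : ℝ) ≤ p := by exact_mod_cast hp
    linarith)
  have hb0 : 0 < b := by
    have he : Real.exp 1 < 3 := by
      have := Real.exp_one_lt_d9
      linarith
    have hN3 : (3 : ℝ) ≤ N := by exact_mod_cast hN
    apply Real.log_pos
    rw [Real.lt_log_iff_exp_lt (by linarith)]
    linarith
  have h2 : ∀ i : ℕ, C / 2 / (a + b) * (1 / ((i : ℝ) + 1)) ≤ C / 2 / (((i : ℝ) + 1) * a + b) := by
    intro i
    have hi : (0 : ℝ) ≤ i := Nat.cast_nonneg i
    rw [div_mul_div_comm, mul_one]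
    apply div_le_div_of_nonneg_left (by linarith) (by positivity)
    nlinarith
  have h3 : Tendsto (fun m : ℕ => C / 2 / (a + b) * ∑ i ∈ range m, (1 / ((i : ℝ) + 1))) atTop atTop := by
    apply Tendsto.const_mul_atTop (by positivity)
    have := Real.tendsto_sum_range_one_div_nat_succ_atTop
    exact this
  apply tendsto_atTop_mono (fun m => ?_) h3
  rw [Finset.mul_sum]
  apply Finset.sum_le_sum
  intro i _
  exact h2 i

variable {Ω : Type*} [MeasurableSpace Ω] {μ : Measure Ω} [IsProbabilityMeasure μ]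
  {R : ℕ → Ω → Finset ℕ}

/-- infinitely many zeros are not good -/
theorem ae_infinite (hM : Model μ p DD R) (hp : 3 ≤ p) (k : ℕ) (hk : 2 * k ≤ p - 1)
    {C : ℝ} (hC : 0 < C)
    (hs : ∀ᶠ z : ℕ in atTop, C / Real.log (Real.log z) ≤ ∑ l ∈ PZ DD k z, ((p : ℝ) - 1) / l) :
    ∀ᵐ ω ∂μ, {n | A p D DD (fun l => R l ω) n = 0 ∧ ¬ good p DD (fun l => R l ω) n}.Infinite := by
  obtain ⟨N0, hN0⟩ := hv_of_sum hp hM.prime k hk hC hs
  have h1 : ∀ N : ℕ, ∀ᵐ ω ∂μ, ∃ n, N < n ∧ A p D DD (fun l => R l ω) n = 0 ∧ ¬ good p DD (fun l => R l ω) n := by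
    intro N
    have h2 := ae_not_good hM (by omega : 1 ≤ p) (N + N0 + 3) _ (hN0 D (N + N0 + 3) (by omega))
      (Qm_prod (by omega) hC (by omega))
    filter_upwards [h2] with ω hω
    obtain ⟨n, h3, h4⟩ := hω
    exact ⟨n, by omega, h4⟩
  filter_upwards [ae_all_iff.2 h1] with ω hω
  rw [Set.infinite_iff_exists_gt]
  intro N
  obtain ⟨n, h3, h4⟩ := hω N
  exact ⟨n, h4, h3⟩

end Pool.Agent.L5helper2.GR
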